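import Mathlib

/-!
Flows on a finite vertex set with concave costs: cycle cancelling, and leaves of the support.
-/

set_option autoImplicit false

set_option linter.unusedSectionVars false

open Finset

namespace Pool.Agent.Y838.UB

variable {V : Type*} [Fintype V] [DecidableEq V]

/-- divergence (net inflow) of a flow `F` at `v` -/
def dvg (F : V → V → ℝ) (v : V) : ℝ := ∑ u, (F u v - F v u)

/-- cost of a flow for the edge weights `w` -/
noncomputable def cst (p : ℝ) (w : V → V → ℝ) (F : V → V → ℝ) : ℝ :=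
  ∑ u, ∑ v, |F u v| ^ p * w u v

/-- support of a flow -/
noncomputable def spt (F : V → V → ℝ) : Finset (V × V) := univ.filter fun e => F e.1 e.2 ≠ 0

theorem dvg_add_mul (F C : V → V → ℝ) (t : ℝ) (v : V) :
    dvg (fun u v => F u v + t * C u v) v = dvg F v + t * dvg C v := by
  simp only [dvg, mul_sum, ← sum_add_distrib]
  exact sum_congr rfl fun u _ => by ring

theorem sum_dvg (F : V → V → ℝ) : ∑ v, dvg F v = 0 := by
  simp only [dvg, sum_sub_distrib]
  rw [sub_eq_zero]
  exact sum_comm

theorem cancel_aux {p : ℝ} (hp : 0 < p) (hp1 : p ≤ 1) {w : V → V → ℝ} (hw : ∀ u v, 0 ≤ w u v)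
    {F C : V → V → ℝ} (hFC : ∀ u v, F u v = 0 → C u v = 0)
    (hD : ∑ u, ∑ v, |F u v| ^ p * w u v * (C u v / F u v) ≤ 0)
    (he : ∃ u v, F u v * C u v < 0) :
    ∃ t : ℝ, (spt fun u v => F u v + t * C u v) ⊂ spt F ∧
      cst p w (fun u v => F u v + t * C u v) ≤ cst p w F := by
  classical
  set S : Finset (V × V) := univ.filter fun e => F e.1 e.2 * C e.1 e.2 < 0 with hS
  have hSne : S.Nonempty := by
    obtain ⟨u, v, h⟩ := he
    exact ⟨(u, v), by simp [hS, h]⟩
  obtain ⟨e, heS, hmin⟩ := Finset.exists_min_image S (fun e => -(F e.1 e.2 / C e.1 e.2)) hSne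
  have he0 : F e.1 e.2 * C e.1 e.2 < 0 := (mem_filter.mp heS).2
  have hFe : F e.1 e.2 ≠ 0 := fun h => by rw [h, zero_mul] at he0; exact lt_irrefl _ he0
  have hCe : C e.1 e.2 ≠ 0 := fun h => by rw [h, mul_zero] at he0; exact lt_irrefl _ he0
  set t : ℝ := -(F e.1 e.2 / C e.1 e.2) with ht
  have htpos : 0 < t := by
    rw [ht, neg_pos]
    have : F e.1 e.2 / C e.1 e.2 = F e.1 e.2 * C e.1 e.2 / (C e.1 e.2) ^ 2 := by field_simp
    rw [this]
    exact div_neg_of_neg_of_pos he0 (by positivity)
  have hge : ∀ u v, F u v ≠ 0 → -1 ≤ t * (C u v / F u v) := by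
    intro u v hF
    rcases lt_or_ge (F u v * C u v) 0 with h | h
    · have hC : C u v ≠ 0 := fun h' => by rw [h', mul_zero] at h; exact lt_irrefl _ h
      have h1 : t ≤ -(F u v / C u v) := hmin (u, v) (by simp [hS, h])
      have h2 : C u v / F u v < 0 := by
        have : C u v / F u v = F u v * C u v / (F u v) ^ 2 := by field_simp
        rw [this]
        exact div_neg_of_neg_of_pos h (by positivity)
      have h3 := mul_le_mul_of_nonpos_right h1 h2.le
      have h4 : -(F u v / C u v) * (C u v / F u v) = -1 := by field_simp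
      linarith
    · have h2 : 0 ≤ C u v / F u v := by
        have : C u v / F u v = F u v * C u v / (F u v) ^ 2 := by field_simp
        rw [this]
        positivity
      have := mul_nonneg htpos.le h2
      linarith
  refine ⟨t, ?_, ?_⟩
  · rw [Finset.ssubset_iff_of_subset]
    · refine ⟨e, by simp [spt, hFe], ?_⟩
      simp only [spt, mem_filter, mem_univ, true_and, not_not]
      rw [ht]
      field_simp
      ring
    · intro f hf
      simp only [spt, mem_filter, mem_univ, true_and] at hf ⊢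
      intro h
      exact hf (by rw [h, hFC _ _ h]; ring)
  · have hterm : ∀ u v, |F u v + t * C u v| ^ p * w u v
        ≤ |F u v| ^ p * w u v + p * t * (|F u v| ^ p * w u v * (C u v / F u v)) := by
      intro u v
      rcases eq_or_ne (F u v) 0 with h | h
      · rw [h, hFC _ _ h]
        simp [Real.zero_rpow hp.ne']
      · have h1 : F u v + t * C u v = F u v * (1 + t * (C u v / F u v)) := by field_simp
        have h2 := hge u v h
        rw [h1, abs_mul, Real.mul_rpow (abs_nonneg _) (abs_nonneg _),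
          abs_of_nonneg (show 0 ≤ 1 + t * (C u v / F u v) by linarith)]
        have h3 := rpow_one_add_le_one_add_mul_self h2 hp.le hp1
        have h4 : 0 ≤ |F u v| ^ p * w u v := mul_nonneg (Real.rpow_nonneg (abs_nonneg _) _) (hw _ _)
        have h5 := mul_le_mul_of_nonneg_left h3 h4
        calc |F u v| ^ p * (1 + t * (C u v / F u v)) ^ p * w u v
            = |F u v| ^ p * w u v * (1 + t * (C u v / F u v)) ^ p := by ring
          _ ≤ |F u v| ^ p * w u v * (1 + p * (t * (C u v / F u v))) := h5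
          _ = _ := by ring
    calc cst p w (fun u v => F u v + t * C u v)
        ≤ ∑ u, ∑ v, (|F u v| ^ p * w u v + p * t * (|F u v| ^ p * w u v * (C u v / F u v))) :=
          sum_le_sum fun u _ => sum_le_sum fun v _ => hterm u v
      _ = cst p w F + p * t * ∑ u, ∑ v, |F u v| ^ p * w u v * (C u v / F u v) := by
          simp only [cst, sum_add_distrib, mul_sum]
      _ ≤ cst p w F := by
          have := mul_nonpos_of_nonneg_of_nonpos (mul_nonneg hp.le htpos.le) hD
          linarith

theorem cancel {p : ℝ} (hp : 0 < p) (hp1 : p ≤ 1) {w : V → V → ℝ} (hw : ∀ u v, 0 ≤ w u v)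
    {F C : V → V → ℝ} (hFC : ∀ u v, F u v = 0 → C u v = 0) (hC : ∃ u v, C u v ≠ 0) :
    ∃ t : ℝ, (spt fun u v => F u v + t * C u v) ⊂ spt F ∧
      cst p w (fun u v => F u v + t * C u v) ≤ cst p w F := by
  -- the opposite circulation
  have hneg : (∑ u, ∑ v, |F u v| ^ p * w u v * ((-C u v) / F u v) ≤ 0) →
      (∃ u v, F u v * (-C u v) < 0) → ∃ t : ℝ, (spt fun u v => F u v + t * C u v) ⊂ spt F ∧
      cst p w (fun u v => F u v + t * C u v) ≤ cst p w F := by
    intro h1 h2
    obtain ⟨t, ht1, ht2⟩ := cancel_aux (C := fun u v => -C u v) hp hp1 hw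
      (fun u v h => by rw [hFC u v h, neg_zero]) h1 h2
    refine ⟨-t, ?_, ?_⟩
    · have e : (fun u v => F u v + -t * C u v) = fun u v => F u v + t * -C u v := by
        funext u v; ring
      rw [e]; exact ht1
    · have e : (fun u v => F u v + -t * C u v) = fun u v => F u v + t * -C u v := by
        funext u v; ring
      rw [e]; exact ht2
  have hDneg : ∑ u, ∑ v, |F u v| ^ p * w u v * ((-C u v) / F u v)
      = - ∑ u, ∑ v, |F u v| ^ p * w u v * (C u v / F u v) := by
    simp only [← sum_neg_distrib]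
    exact sum_congr rfl fun u _ => sum_congr rfl fun v _ => by ring
  have hnegterm : ∀ C' : V → V → ℝ, (∑ u, ∑ v, |F u v| ^ p * w u v * (C' u v / F u v) < 0) →
      ∃ u v, F u v * C' u v < 0 := by
    intro C' h
    by_contra hcon
    push Not at hcon
    refine absurd h (not_lt.mpr (sum_nonneg fun u _ => sum_nonneg fun v _ => ?_))
    refine mul_nonneg (mul_nonneg (Real.rpow_nonneg (abs_nonneg _) _) (hw _ _)) ?_
    rcases eq_or_ne (F u v) 0 with h0 | h0
    · rw [h0, div_zero]
    · have : C' u v / F u v = F u v * C' u v / (F u v) ^ 2 := by field_simp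
      rw [this]
      exact div_nonneg (hcon u v) (by positivity)
  rcases lt_trichotomy (∑ u, ∑ v, |F u v| ^ p * w u v * (C u v / F u v)) 0 with h | h | h
  · exact cancel_aux hp hp1 hw hFC h.le (hnegterm C h)
  · obtain ⟨u, v, hC⟩ := hC
    have hF : F u v ≠ 0 := fun h' => hC (hFC u v h')
    rcases lt_or_gt_of_ne (mul_ne_zero hF hC) with h1 | h1
    · exact cancel_aux hp hp1 hw hFC h.le ⟨u, v, h1⟩
    · exact hneg (by rw [hDneg, h, neg_zero]) ⟨u, v, by linarith⟩
  · exact hneg (by rw [hDneg]; linarith) (hnegterm (fun u v => -C u v) (by rw [hDneg]; linarith))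

/-- no nonzero circulation is supported in the support of `F` -/
def NoCirc (F : V → V → ℝ) : Prop :=
  ∀ C : V → V → ℝ, (∀ u v, F u v = 0 → C u v = 0) → (∀ v, dvg C v = 0) → ∀ u v, C u v = 0

theorem exists_noCirc {p : ℝ} (hp : 0 < p) (hp1 : p ≤ 1) {w : V → V → ℝ} (hw : ∀ u v, 0 ≤ w u v)
    (F : V → V → ℝ) : ∃ F' : V → V → ℝ, (∀ v, dvg F' v = dvg F v) ∧
      cst p w F' ≤ cst p w F ∧ NoCirc F' := by
  induction hn : (spt F).card using Nat.strong_induction_on generalizing F with
  | _ n ih =>
    by_cases hNC : NoCirc F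
    · exact ⟨F, fun _ => rfl, le_rfl, hNC⟩
    · simp only [NoCirc, not_forall] at hNC
      obtain ⟨C, hFC, hdv, u, v, hC⟩ := hNC
      obtain ⟨t, ht1, ht2⟩ := cancel hp hp1 hw hFC ⟨u, v, hC⟩
      obtain ⟨F', h1, h2, h3⟩ := ih _ (by rw [← hn]; exact Finset.card_lt_card ht1)
        (fun u v => F u v + t * C u v) rfl
      exact ⟨F', fun v => by rw [h1, dvg_add_mul, hdv, mul_zero, add_zero], h2.trans ht2, h3⟩

theorem noLoop {F : V → V → ℝ} (h : NoCirc F) (x : V) : F x x = 0 := by
  by_contra hne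
  have h1 := h (fun u v => if u = x ∧ v = x then 1 else 0) ?_ ?_ x x
  · simp at h1
  · intro u v huv
    by_cases h2 : u = x ∧ v = x
    · rw [h2.1, h2.2] at huv; exact absurd huv hne
    · simp [h2]
  · intro v
    rw [dvg]
    refine sum_eq_zero fun u _ => ?_
    by_cases h2 : u = x ∧ v = x
    · simp [h2]
    · rw [if_neg h2, if_neg (fun h3 => h2 ⟨h3.2, h3.1⟩), sub_zero]

/-- every nonempty set of vertices contains a vertex which lies on at most one edge inside it -/
theorem exists_leaf {F : V → V → ℝ} (h : NoCirc F) (W : Finset V) (hW : W.Nonempty) :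
    ∃ x ∈ W, ((W ×ˢ W).filter fun e => F e.1 e.2 ≠ 0 ∧ (e.1 = x ∨ e.2 = x)).card ≤ 1 := by
  classical
  by_contra hcon
  push Not at hcon
  set E : Finset (V × V) := (W ×ˢ W).filter fun e => F e.1 e.2 ≠ 0 with hE
  -- count
  have hcount : ∑ x ∈ W, ((W ×ˢ W).filter fun e => F e.1 e.2 ≠ 0 ∧ (e.1 = x ∨ e.2 = x)).card
      ≤ 2 * E.card := by
    have h1 : ∀ x ∈ W, ((W ×ˢ W).filter fun e => F e.1 e.2 ≠ 0 ∧ (e.1 = x ∨ e.2 = x)).card
        ≤ ∑ e ∈ E, ((if e.1 = x then 1 else 0) + (if e.2 = x then 1 else 0)) := by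
      intro x _
      have e1 : ((W ×ˢ W).filter fun e => F e.1 e.2 ≠ 0 ∧ (e.1 = x ∨ e.2 = x))
          = E.filter fun e => e.1 = x ∨ e.2 = x := by
        rw [hE, filter_filter]
      rw [e1, card_filter]
      refine sum_le_sum fun e _ => ?_
      by_cases h2 : e.1 = x <;> by_cases h3 : e.2 = x <;> simp [h2, h3]
    refine (sum_le_sum h1).trans ?_
    rw [sum_comm]
    have h2 : ∀ e ∈ E, ∑ x ∈ W, ((if e.1 = x then 1 else 0) + (if e.2 = x then 1 else 0)) ≤ 2 := by
      intro e _
      rw [sum_add_distrib, sum_ite_eq, sum_ite_eq]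
      split_ifs <;> norm_num
    refine (sum_le_sum h2).trans ?_
    rw [sum_const, smul_eq_mul, mul_comm]
  have hcard : W.card ≤ E.card := by
    have h1 : ∑ x ∈ W, 2 ≤ ∑ x ∈ W,
        ((W ×ˢ W).filter fun e => F e.1 e.2 ≠ 0 ∧ (e.1 = x ∨ e.2 = x)).card :=
      sum_le_sum fun x hx => hcon x hx
    rw [sum_const, smul_eq_mul] at h1
    omega
  obtain ⟨w0, hw0⟩ := hW
  -- the linear map
  let ext : (E → ℝ) → V → V → ℝ := fun x u v => if h : (u, v) ∈ E then x ⟨(u, v), h⟩ else 0
  have ext_add : ∀ x y u v, ext (x + y) u v = ext x u v + ext y u v := by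
    intro x y u v
    simp only [ext]
    split_ifs <;> simp
  have ext_smul : ∀ (a : ℝ) x u v, ext (a • x) u v = a * ext x u v := by
    intro a x u v
    simp only [ext]
    split_ifs <;> simp
  let Φ : (E → ℝ) →ₗ[ℝ] ({v : V // v ∈ W.erase w0} → ℝ) :=
    { toFun := fun x v => dvg (ext x) v
      map_add' := by
        intro x y
        funext v
        simp only [dvg, Pi.add_apply, ← sum_add_distrib]
        exact sum_congr rfl fun u _ => by rw [ext_add, ext_add]; ring
      map_smul' := by
        intro a x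
        funext v
        simp only [dvg, Pi.smul_apply, smul_eq_mul, mul_sum, RingHom.id_apply]
        exact sum_congr rfl fun u _ => by rw [ext_smul, ext_smul]; ring }
  have hker : LinearMap.ker Φ ≠ ⊥ := by
    apply LinearMap.ker_ne_bot_of_finrank_lt
    rw [Module.finrank_fintype_fun_eq_card, Module.finrank_fintype_fun_eq_card,
      Fintype.card_coe, Fintype.card_coe, Finset.card_erase_of_mem hw0]
    have := Finset.card_pos.mpr ⟨w0, hw0⟩
    omega
  obtain ⟨x, hx, hx0⟩ := (Submodule.ne_bot_iff _).mp hker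
  have hdv : ∀ v, v ≠ w0 → dvg (ext x) v = 0 := by
    intro v hv
    by_cases hvW : v ∈ W
    · have h1 : Φ x ⟨v, Finset.mem_erase.mpr ⟨hv, hvW⟩⟩ = 0 := by
        rw [LinearMap.mem_ker.mp hx]; rfl
      exact h1
    · rw [dvg]
      refine sum_eq_zero fun u _ => ?_
      have h1 : (u, v) ∉ E := fun h' => hvW (mem_product.mp (mem_filter.mp h').1).2
      have h2 : (v, u) ∉ E := fun h' => hvW (mem_product.mp (mem_filter.mp h').1).1
      simp [ext, h1, h2]
  have hdv0 : ∀ v, dvg (ext x) v = 0 := by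
    intro v
    rcases eq_or_ne v w0 with rfl | hv
    · have h1 := sum_dvg (ext x)
      rwa [Finset.sum_eq_single v (fun u _ hu => hdv u hu) (by simp)] at h1
    · exact hdv v hv
  have hzero := h (ext x) (fun u v huv => by
    have h1 : (u, v) ∉ E := fun h' => (mem_filter.mp h').2 huv
    simp [ext, h1]) hdv0
  apply hx0
  funext e
  have h1 := hzero e.1.1 e.1.2
  have h2 : (e.1.1, e.1.2) ∈ E := e.2
  simp only [ext, h2, dite_true] at h1
  simpa using h1

end Pool.Agent.Y838.UB
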