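import Pool.Agent.Y838.UB.A

/-!
Random retractions of a forest onto a set of terminals: the expected stretch is at most `2 e`.
-/

set_option autoImplicit false
set_option linter.unusedSectionVars false

open Finset MeasureTheory

namespace Pool.Agent.Y838.UB

/-- logarithmic length of an edge of length `l` from a child at height `a` to a parent at height
`b`, truncated at `1` -/
noncomputable def tt (a b l : ℝ) : ℝ := if a = 0 then 1 else min 1 (Real.log ((l + a + b) / (2 * a)))

/-- the bound for the stretch of this edge if the parent has phase `φ` -/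
noncomputable def GG (a b l φ : ℝ) : ℝ :=
  if 1 ≤ φ + tt a b l then a + l + (2 * Real.exp φ - 1) * b else 0

theorem tt_le_one (a b l : ℝ) : tt a b l ≤ 1 := by
  rw [tt]; split_ifs
  · exact le_rfl
  · exact min_le_left _ _

theorem tt_nonneg {a b l : ℝ} (ha : 0 ≤ a) (hab : a ≤ b + l) : 0 ≤ tt a b l := by
  rw [tt]; split_ifs with h
  · exact zero_le_one
  · have ha' : 0 < a := lt_of_le_of_ne ha (Ne.symm h)
    refine le_min zero_le_one (Real.log_nonneg ?_)
    rw [le_div_iff₀ (by positivity)]
    linarith

/-- no cut: the distance to the current representative stays under control -/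
theorem nocut {a b l φ : ℝ} (ha : 0 ≤ a) (hφ : 0 ≤ φ) (hab : a ≤ b + l)
    (hba : b ≤ a + l) (h : φ + tt a b l < 1) :
    l + (2 * Real.exp φ - 1) * b ≤ (2 * Real.exp (φ + tt a b l) - 1) * a := by
  have ht : tt a b l < 1 := by linarith
  have h0 : a ≠ 0 := by
    rintro rfl
    simp [tt] at ht
  have ha' : 0 < a := lt_of_le_of_ne ha (Ne.symm h0)
  rw [tt, if_neg h0] at ht ⊢
  have h1 : Real.log ((l + a + b) / (2 * a)) < 1 := by
    by_contra hcon
    rw [min_eq_left (not_lt.mp hcon)] at ht
    exact lt_irrefl _ ht
  rw [min_eq_right h1.le, Real.exp_add, Real.exp_log (by apply div_pos <;> linarith)]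
  have h2 : 1 ≤ Real.exp φ := Real.one_le_exp hφ
  have e1 : (2 * (Real.exp φ * ((l + a + b) / (2 * a))) - 1) * a = Real.exp φ * (l + a + b) - a := by
    field_simp
  rw [e1]
  nlinarith [mul_nonneg (sub_nonneg.mpr h2) (show 0 ≤ l + a - b by linarith)]

theorem integral_formula (a b l t : ℝ) :
    ∫ φ in (1 - t)..1, (a + l + (2 * Real.exp φ - 1) * b)
      = t * (a + l - b) + 2 * b * (Real.exp 1 - Real.exp (1 - t)) := by
  have h1 : (fun φ : ℝ => a + l + (2 * Real.exp φ - 1) * b)
      = fun φ => (a + l - b) + (2 * b) * Real.exp φ := by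
    funext φ; ring
  rw [h1, intervalIntegral.integral_add (by simp)
    ((Real.continuous_exp.const_mul _).intervalIntegrable _ _),
    intervalIntegral.integral_const, intervalIntegral.integral_const_mul, integral_exp, smul_eq_mul]
  ring

theorem final_bound {a b l : ℝ} (ha : 0 ≤ a) (hb : 0 ≤ b) (hl : 0 ≤ l) (hab : a ≤ b + l)
    (hba : b ≤ a + l) :
    tt a b l * (a + l - b) + 2 * b * (Real.exp 1 - Real.exp (1 - tt a b l))
      ≤ 2 * Real.exp 1 * l := by
  have he : 1 ≤ Real.exp 1 := Real.one_le_exp zero_le_one
  have he2 : 2 ≤ Real.exp 1 := by have := Real.add_one_le_exp 1; linarith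
  -- the case t = 1
  have hone : (2 * Real.exp 1 - 1) * a ≤ b + l →
      1 * (a + l - b) + 2 * b * (Real.exp 1 - Real.exp (1 - 1)) ≤ 2 * Real.exp 1 * l := by
    intro h
    rw [sub_self, Real.exp_zero]
    nlinarith [mul_nonneg (show 0 ≤ 2 * Real.exp 1 - 2 by linarith)
      (show 0 ≤ l - (b - a) by linarith)]
  rcases eq_or_lt_of_le ha with rfl | ha'
  · have : tt 0 b l = 1 := by simp [tt]
    rw [this]
    exact hone (by linarith)
  · rw [tt, if_neg ha'.ne']
    rcases le_total 1 (Real.log ((l + a + b) / (2 * a))) with h | h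
    · rw [min_eq_left h]
      apply hone
      have h1 : 0 < (l + a + b) / (2 * a) := by apply div_pos <;> linarith
      rw [Real.le_log_iff_exp_le h1, le_div_iff₀ (by linarith)] at h
      linarith
    · rw [min_eq_right h]
      have h1 : 0 < (l + a + b) / (2 * a) := by apply div_pos <;> linarith
      have hpos : 0 < l + a + b := by linarith
      rw [Real.exp_sub, Real.exp_log h1]
      have e1 : Real.exp 1 - Real.exp 1 / ((l + a + b) / (2 * a))
          = Real.exp 1 * ((l + b - a) / (l + a + b)) := by
        field_simp; ring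
      rw [e1]
      have hz : 0 ≤ a + l - b := by linarith
      have h2 : Real.log ((l + a + b) / (2 * a)) * (a + l - b) ≤ 1 * (a + l - b) :=
        mul_le_mul_of_nonneg_right h hz
      have e2 : 2 * Real.exp 1 * l - 2 * b * (Real.exp 1 * ((l + b - a) / (l + a + b)))
          = 2 * Real.exp 1 * ((a + l - b) * ((l + b) / (l + a + b))) := by
        field_simp; ring
      have h3 : 1 / 2 ≤ (l + b) / (l + a + b) := by
        rw [div_le_div_iff₀ (by norm_num) hpos]; linarith
      have h4 : (a + l - b) * (1 / 2) ≤ (a + l - b) * ((l + b) / (l + a + b)) :=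
        mul_le_mul_of_nonneg_left h3 hz
      have h5 : 0 ≤ (a + l - b) * ((l + b) / (l + a + b)) := le_trans (by positivity) h4
      nlinarith [mul_le_mul_of_nonneg_right he h5]

/-- the phase function of an edge -/
noncomputable def HH (a b l τ U : ℝ) : ℝ := GG a b l (Int.fract (τ + U))

theorem HH_meas (a b l τ : ℝ) : Measurable (HH a b l τ) := by
  unfold HH GG
  refine Measurable.ite ?_ ?_ measurable_const
  · exact measurableSet_le measurable_const
      ((measurable_fract.comp (measurable_const.add measurable_id)).add_const _)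
  · have : Measurable fun U : ℝ => Int.fract (τ + U) :=
      measurable_fract.comp (measurable_const.add measurable_id)
    exact ((((Real.measurable_exp.comp this).const_mul 2).sub_const 1).mul_const b).const_add _

theorem HH_bound {a b l : ℝ} (ha : 0 ≤ a) (hb : 0 ≤ b) (hl : 0 ≤ l) (τ U : ℝ) :
    |HH a b l τ U| ≤ a + l + (2 * Real.exp 1 - 1) * b := by
  have h0 := Int.fract_nonneg (τ + U)
  have h1 := (Int.fract_lt_one (τ + U)).le
  have h2 : 1 ≤ Real.exp (Int.fract (τ + U)) := Real.one_le_exp h0
  have h3 : Real.exp (Int.fract (τ + U)) ≤ Real.exp 1 := Real.exp_le_exp.mpr h1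
  have h4 : 0 ≤ (2 * Real.exp (Int.fract (τ + U)) - 1) * b := mul_nonneg (by linarith) hb
  have h5 : (2 * Real.exp (Int.fract (τ + U)) - 1) * b ≤ (2 * Real.exp 1 - 1) * b :=
    mul_le_mul_of_nonneg_right (by linarith) hb
  rw [HH, GG]
  split_ifs
  · rw [abs_of_nonneg (by linarith)]; linarith
  · rw [abs_zero]; linarith

theorem HH_integrable {a b l : ℝ} (ha : 0 ≤ a) (hb : 0 ≤ b) (hl : 0 ≤ l) (τ x y : ℝ) :
    IntervalIntegrable (HH a b l τ) volume x y := by
  rw [intervalIntegrable_iff]
  refine Measure.integrableOn_of_bounded (M := a + l + (2 * Real.exp 1 - 1) * b) ?_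
    (HH_meas a b l τ).aestronglyMeasurable ?_
  · simp
  · exact Filter.Eventually.of_forall fun U => by
      rw [Real.norm_eq_abs]; exact HH_bound ha hb hl τ U

theorem HH_integral {a b l : ℝ} (ha : 0 ≤ a) (hb : 0 ≤ b) (hl : 0 ≤ l) (hab : a ≤ b + l)
    (hba : b ≤ a + l) (τ : ℝ) :
    ∫ U in (0 : ℝ)..1, HH a b l τ U ≤ 2 * Real.exp 1 * l := by
  have hper : Function.Periodic (fun z : ℝ => GG a b l (Int.fract z)) 1 := by
    intro z
    simp only [Int.fract_add_one]
  have e1 : ∫ U in (0 : ℝ)..1, HH a b l τ U = ∫ z in (0 : ℝ)..1, GG a b l (Int.fract z) := by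
    have h1 : ∫ U in (0 : ℝ)..1, HH a b l τ U
        = ∫ z in (τ + 0)..(τ + 1), GG a b l (Int.fract z) :=
      intervalIntegral.integral_comp_add_left (fun z => GG a b l (Int.fract z)) τ
    rw [h1, add_zero, hper.intervalIntegral_add_eq τ 0, zero_add]
  have ht0 := tt_nonneg ha hab (l := l)
  have ht1 := tt_le_one a b l
  have hi : ∀ x y : ℝ, IntervalIntegrable (fun z : ℝ => GG a b l (Int.fract z)) volume x y := by
    intro x y
    have e : (fun z : ℝ => GG a b l (Int.fract z)) = HH a b l 0 := by
      funext z; rw [HH, zero_add]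
    rw [e]
    exact HH_integrable ha hb hl 0 x y
  rw [e1, ← intervalIntegral.integral_add_adjacent_intervals (b := 1 - tt a b l)
    (hi _ _) (hi _ _)]
  have e2 : ∫ z in (0 : ℝ)..(1 - tt a b l), GG a b l (Int.fract z) = 0 := by
    have : ∫ z in (0 : ℝ)..(1 - tt a b l), GG a b l (Int.fract z)
        = ∫ z in (0 : ℝ)..(1 - tt a b l), (0 : ℝ) := by
      apply intervalIntegral.integral_congr_ae
      have h1 : ∀ᵐ z : ℝ ∂volume, z ≠ 1 - tt a b l := by
        simp [ae_iff, measure_singleton]
      filter_upwards [h1] with z hz hz'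
      rw [Set.uIoc_of_le (by linarith)] at hz'
      have h2 : z < 1 - tt a b l := lt_of_le_of_ne hz'.2 hz
      have h3 : Int.fract z = z := Int.fract_eq_self.mpr ⟨hz'.1.le, by linarith⟩
      rw [h3, GG, if_neg (by linarith)]
    rw [this, intervalIntegral.integral_zero]
  have e3 : ∫ z in (1 - tt a b l)..1, GG a b l (Int.fract z)
      = ∫ φ in (1 - tt a b l)..1, (a + l + (2 * Real.exp φ - 1) * b) := by
    apply intervalIntegral.integral_congr_ae
    have h1 : ∀ᵐ z : ℝ ∂volume, z ≠ 1 := by
      simp [ae_iff, measure_singleton]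
    filter_upwards [h1] with z hz hz'
    rw [Set.uIoc_of_le (by linarith)] at hz'
    have h2 : z < 1 := lt_of_le_of_ne hz'.2 hz
    have h3 : Int.fract z = z := Int.fract_eq_self.mpr ⟨by linarith [hz'.1], h2⟩
    rw [h3, GG, if_pos (by linarith [hz'.1])]
  rw [e2, e3, zero_add, integral_formula]
  exact final_bound ha hb hl hab hba

variable {V : Type*} [Fintype V] [DecidableEq V]

/-- **Random retraction.** `σ` is a pseudometric on the finite set `V`, `r v` is a nearest point
of `v` in the set `N` of terminals, and the support of `F` is a forest. There is a family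
`c = c_U` (`0 ≤ U ≤ 1`) of retractions of `V` onto `N` which stretches the length of every edge of
the forest by at most `2 e` on average. -/
theorem retraction {F : V → V → ℝ} (hF : NoCirc F) {σ : V → V → ℝ} (hσ0 : ∀ u v, 0 ≤ σ u v)
    (hσs : ∀ u v, σ u v = σ v u) (hσt : ∀ u v z, σ u z ≤ σ u v + σ v z)
    {N : V → Prop} {r : V → V} (hr : ∀ v, N (r v)) (hrN : ∀ v, N v → r v = v)
    (hmin : ∀ v x, N x → σ v (r v) ≤ σ v x) (hself : ∀ v, σ v v = 0) (W : Finset V) :
    ∃ (τ : V → ℝ) (g : V → V → ℝ → ℝ),
      (∀ u ∈ W, ∀ v ∈ W, F u v ≠ 0 → IntervalIntegrable (g u v) volume 0 1 ∧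
        ∫ U in (0 : ℝ)..1, g u v U ≤ 2 * Real.exp 1 * σ u v) ∧
      ∀ U : ℝ, ∃ c : V → V, (∀ v, N (c v)) ∧ (∀ v, N v → c v = v) ∧
        (∀ v ∈ W, σ v (c v) ≤ (2 * Real.exp (Int.fract (τ v + U)) - 1) * σ v (r v)) ∧
        ∀ u ∈ W, ∀ v ∈ W, F u v ≠ 0 → σ (c u) (c v) ≤ g u v U := by
  classical
  have hLip : ∀ u v, σ u (r u) ≤ σ v (r v) + σ u v := fun u v => by
    have h1 := hmin u (r v) (hr v)
    have h2 := hσt u v (r v)
    linarith
  induction hn : W.card using Nat.strong_induction_on generalizing W with
  | _ n ih =>
    rcases W.eq_empty_or_nonempty with rfl | hW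
    · exact ⟨fun _ => 0, fun _ _ _ => 0, by simp, fun U => ⟨r, hr, hrN, by simp, by simp⟩⟩
    obtain ⟨x, hxW, hx⟩ := exists_leaf hF W hW
    rw [Finset.card_le_one] at hx
    have hFxx := noLoop hF x
    obtain ⟨τ, g, hg, hc⟩ := ih (W.erase x).card (by rw [← hn]; exact Finset.card_erase_lt_of_mem hxW)
      (W.erase x) rfl
    by_cases hy : ∃ y ∈ W, F x y ≠ 0 ∨ F y x ≠ 0
    · obtain ⟨y, hyW, hxy⟩ := hy
      have hyx : y ≠ x := by
        rintro rfl
        rcases hxy with h | h <;> exact h hFxx
      -- the only neighbour
      have huniq : ∀ z ∈ W, (F x z ≠ 0 ∨ F z x ≠ 0) → z = y := by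
        intro z hz hxz
        have hzx : z ≠ x := by
          rintro rfl
          rcases hxz with h | h <;> exact h hFxx
        rcases hxy with h1 | h1 <;> rcases hxz with h2 | h2
        · have := hx (x, y) (by simp [hxW, hyW, h1]) (x, z) (by simp [hxW, hz, h2])
          simpa using this.symm
        · have := hx (x, y) (by simp [hxW, hyW, h1]) (z, x) (by simp [hxW, hz, h2])
          simp only [Prod.mk.injEq] at this
          exact absurd this.1.symm hzx
        · have := hx (y, x) (by simp [hxW, hyW, h1]) (x, z) (by simp [hxW, hz, h2])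
          simp only [Prod.mk.injEq] at this
          exact absurd this.1 hyx
        · have := hx (y, x) (by simp [hxW, hyW, h1]) (z, x) (by simp [hxW, hz, h2])
          simpa using this.symm
      have hyE : y ∈ W.erase x := Finset.mem_erase.mpr ⟨hyx, hyW⟩
      have hab : σ x (r x) ≤ σ y (r y) + σ x y := hLip x y
      have hba : σ y (r y) ≤ σ x (r x) + σ x y := by rw [hσs x y]; exact hLip y x
      refine ⟨Function.update τ x (τ y + tt (σ x (r x)) (σ y (r y)) (σ x y)),
        fun u v => if u = x ∨ v = x then HH (σ x (r x)) (σ y (r y)) (σ x y) (τ y) else g u v,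
        ?_, ?_⟩
      · intro u hu v hv huv
        by_cases h : u = x ∨ v = x
        · simp only [h, if_true]
          refine ⟨HH_integrable (hσ0 _ _) (hσ0 _ _) (hσ0 _ _) _ _ _, ?_⟩
          have e : σ u v = σ x y := by
            rcases h with rfl | rfl
            · rw [huniq v hv (Or.inl huv)]
            · rw [huniq u hu (Or.inr huv), hσs]
          rw [e]
          exact HH_integral (hσ0 _ _) (hσ0 _ _) (hσ0 _ _) hab hba _
        · simp only [h, if_false]
          push Not at h
          exact hg u (Finset.mem_erase.mpr ⟨h.1, hu⟩) v (Finset.mem_erase.mpr ⟨h.2, hv⟩) huv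
      · intro U
        obtain ⟨c, hc1, hc2, hc3, hc4⟩ := hc U
        set φ := Int.fract (τ y + U) with hφ
        have hφ0 : 0 ≤ φ := Int.fract_nonneg _
        have hφ1 : φ < 1 := Int.fract_lt_one _
        set t := tt (σ x (r x)) (σ y (r y)) (σ x y) with ht
        have ht0 : 0 ≤ t := tt_nonneg (hσ0 _ _) hab
        set cx : V := if 1 ≤ φ + t then r x else c y with hcx
        have hNx : N x → cx = x := by
          intro hNx
          have h0 : σ x (r x) = 0 := by rw [hrN x hNx, hself]
          have h1 : t = 1 := by rw [ht, tt, if_pos h0]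
          rw [hcx, if_pos (by rw [h1]; linarith), hrN x hNx]
        -- distance from `x` to its representative
        have hinv : σ x cx ≤ (2 * Real.exp (Int.fract (τ y + t + U)) - 1) * σ x (r x) := by
          by_cases h : 1 ≤ φ + t
          · rw [hcx, if_pos h]
            have h1 : 1 ≤ Real.exp (Int.fract (τ y + t + U)) :=
              Real.one_le_exp (Int.fract_nonneg _)
            nlinarith [hσ0 x (r x)]
          · rw [hcx, if_neg h]
            push Not at h
            have e : Int.fract (τ y + t + U) = φ + t := by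
              rw [Int.fract_eq_iff]
              refine ⟨by linarith, h, ⌊τ y + U⌋, ?_⟩
              have := Int.self_sub_fract (τ y + U)
              rw [← hφ] at this
              linarith
            rw [e]
            have h1 := nocut (hσ0 x (r x)) hφ0 hab hba h
            have h2 := hc3 y hyE
            have h3 := hσt x y (c y)
            rw [← hφ] at h2
            linarith
        -- the stretch of the new edge
        have hedge : σ cx (c y) ≤ HH (σ x (r x)) (σ y (r y)) (σ x y) (τ y) U := by
          rw [HH, ← hφ, GG, ← ht]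
          by_cases h : 1 ≤ φ + t
          · rw [if_pos h, hcx, if_pos h]
            have h1 := hc3 y hyE
            rw [← hφ] at h1
            have h2 := hσt (r x) x (c y)
            have h3 := hσt x y (c y)
            rw [hσs (r x) x] at h2
            linarith
          · rw [if_neg h, hcx, if_neg h, hself]
        refine ⟨Function.update c x cx, ?_, ?_, ?_, ?_⟩
        · intro v
          rcases eq_or_ne v x with rfl | hv
          · rw [Function.update_self, hcx]
            split_ifs
            · exact hr v
            · exact hc1 y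
          · rw [Function.update_of_ne hv]; exact hc1 v
        · intro v hv
          rcases eq_or_ne v x with rfl | hvx
          · rw [Function.update_self]; exact hNx hv
          · rw [Function.update_of_ne hvx]; exact hc2 v hv
        · intro v hv
          rcases eq_or_ne v x with rfl | hvx
          · rw [Function.update_self, Function.update_self]; exact hinv
          · rw [Function.update_of_ne hvx, Function.update_of_ne hvx]
            exact hc3 v (Finset.mem_erase.mpr ⟨hvx, hv⟩)
        · intro u hu v hv huv
          by_cases h : u = x ∨ v = x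
          · simp only [h, if_true]
            rcases h with rfl | rfl
            · have hvy := huniq v hv (Or.inl huv)
              rw [hvy, Function.update_self, Function.update_of_ne hyx]
              exact hedge
            · have huy := huniq u hu (Or.inr huv)
              rw [huy, Function.update_self, Function.update_of_ne hyx, hσs]
              exact hedge
          · simp only [h, if_false]
            push Not at h
            rw [Function.update_of_ne h.1, Function.update_of_ne h.2]
            exact hc4 u (Finset.mem_erase.mpr ⟨h.1, hu⟩) v (Finset.mem_erase.mpr ⟨h.2, hv⟩) huv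
    · push Not at hy
      have hedge : ∀ u ∈ W, ∀ v ∈ W, F u v ≠ 0 → u ≠ x ∧ v ≠ x := by
        intro u hu v hv huv
        constructor
        · rintro rfl; exact huv (hy v hv).1
        · rintro rfl; exact huv (hy u hu).2
      refine ⟨τ, g, ?_, ?_⟩
      · intro u hu v hv huv
        obtain ⟨h1, h2⟩ := hedge u hu v hv huv
        exact hg u (Finset.mem_erase.mpr ⟨h1, hu⟩) v (Finset.mem_erase.mpr ⟨h2, hv⟩) huv
      · intro U
        obtain ⟨c, hc1, hc2, hc3, hc4⟩ := hc U
        refine ⟨Function.update c x (r x), ?_, ?_, ?_, ?_⟩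
        · intro v
          rcases eq_or_ne v x with rfl | hv
          · rw [Function.update_self]; exact hr v
          · rw [Function.update_of_ne hv]; exact hc1 v
        · intro v hv
          rcases eq_or_ne v x with rfl | hvx
          · rw [Function.update_self]; exact hrN v hv
          · rw [Function.update_of_ne hvx]; exact hc2 v hv
        · intro v hv
          rcases eq_or_ne v x with rfl | hvx
          · rw [Function.update_self]
            have h1 : 1 ≤ Real.exp (Int.fract (τ v + U)) := Real.one_le_exp (Int.fract_nonneg _)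
            nlinarith [hσ0 v (r v)]
          · rw [Function.update_of_ne hvx]
            exact hc3 v (Finset.mem_erase.mpr ⟨hvx, hv⟩)
        · intro u hu v hv huv
          obtain ⟨h1, h2⟩ := hedge u hu v hv huv
          rw [Function.update_of_ne h1, Function.update_of_ne h2]
          exact hc4 u (Finset.mem_erase.mpr ⟨h1, hu⟩) v (Finset.mem_erase.mpr ⟨h2, hv⟩) huv

end Pool.Agent.Y838.UB
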