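import Pool.Agent.Y838.UB.B
import Pool.Agent.H164R3.AmDefs

/-!
The transport inequality: pushing a flow onto the terminals costs at most the factor `(2 e) ^ s`.
-/

set_option autoImplicit false
set_option linter.unusedSectionVars false

open Finset MeasureTheory

namespace Pool.Agent.Y838.UB

open Pool.Agent.H164R3.Amen

/-- subadditivity for finite sums -/
theorem norm_sum_le {p : ℝ} (hp : 0 < p) {Y : Type} [AddCommGroup Y] [Module ℝ Y] {N : Y → ℝ}
    (h : IsPBanach p N) {ι : Type*} (s : Finset ι) (x : ι → Y) :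
    N (∑ i ∈ s, x i) ^ p ≤ ∑ i ∈ s, N (x i) ^ p := by
  classical
  induction s using Finset.induction_on with
  | empty =>
    rw [sum_empty, sum_empty, (h.eq_zero_iff 0).mpr rfl, Real.zero_rpow hp.ne']
  | insert a s ha ih =>
    rw [sum_insert ha, sum_insert ha]
    exact (h.add _ _).trans (by linarith)

/-- the tangent of `x ^ s` at `c` -/
theorem tangent {s x c : ℝ} (hs : 0 ≤ s) (hs1 : s ≤ 1) (hx : 0 ≤ x) (hc : 0 < c) :
    x ^ s ≤ s * c ^ (s - 1) * x + (1 - s) * c ^ s := by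
  have h1 : -1 ≤ x / c - 1 := by have := div_nonneg hx hc.le; linarith
  have h2 := rpow_one_add_le_one_add_mul_self h1 hs hs1
  have h3 : 1 + (x / c - 1) = x / c := by ring
  rw [h3] at h2
  have h4 : x ^ s = c ^ s * (x / c) ^ s := by
    rw [← Real.mul_rpow hc.le (div_nonneg hx hc.le)]
    congr 1; field_simp
  rw [h4]
  refine (mul_le_mul_of_nonneg_left h2 (Real.rpow_nonneg hc.le s)).trans (le_of_eq ?_)
  rw [Real.rpow_sub_one hc.ne']
  field_simp
  ring

variable {V : Type*} [Fintype V] [DecidableEq V]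

theorem push {Y : Type} [AddCommGroup Y] [Module ℝ Y] (F : V → V → ℝ) (f : V → Y) :
    ∑ v, dvg F v • f v = ∑ u, ∑ v, F u v • (f v - f u) := by
  simp only [dvg, sum_smul, sub_smul, smul_sub, sum_sub_distrib]
  congr 1
  exact sum_comm

theorem cst_eq_spt {p : ℝ} (hp : 0 < p) (w : V → V → ℝ) (F : V → V → ℝ) :
    cst p w F = ∑ e ∈ spt F, |F e.1 e.2| ^ p * w e.1 e.2 := by
  rw [cst, ← Finset.sum_product', Finset.univ_product_univ, spt, Finset.sum_filter]
  refine sum_congr rfl fun e _ => ?_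
  split_ifs with h
  · rfl
  · push Not at h
    rw [h, abs_zero, Real.zero_rpow hp.ne', zero_mul]

theorem core {p s : ℝ} (hp : 0 < p) (hp1 : p ≤ 1) (hs : 0 < s) (hs1 : s ≤ 1)
    {Y : Type} [AddCommGroup Y] [Module ℝ Y] {NY : Y → ℝ} (hN : IsPBanach p NY)
    {σ : V → V → ℝ} (hσ0 : ∀ u v, 0 ≤ σ u v) (hσe : ∀ u v, σ u v = 0 ↔ u = v)
    (hσs : ∀ u v, σ u v = σ v u) (hσt : ∀ u v z, σ u z ≤ σ u v + σ v z)
    {N : V → Prop} (hNne : ∃ v, N v) {f : V → Y}
    (hf : ∀ u v, N u → N v → NY (f u - f v) ^ p ≤ σ u v ^ s)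
    {F : V → V → ℝ} (hF : ∀ v, ¬ N v → dvg F v = 0) :
    NY (∑ v, dvg F v • f v) ^ p
      ≤ (2 * Real.exp 1) ^ s * cst p (fun u v => σ u v ^ s) F := by
  classical
  have hself : ∀ v, σ v v = 0 := fun v => (hσe v v).mpr rfl
  -- nearest points
  have hr : ∀ v, ∃ y, N y ∧ ∀ x, N x → σ v y ≤ σ v x := by
    intro v
    obtain ⟨x0, hx0⟩ := hNne
    obtain ⟨y, hy, hmin⟩ := Finset.exists_min_image (univ.filter N) (fun y => σ v y)
      ⟨x0, by simp [hx0]⟩
    exact ⟨y, (mem_filter.mp hy).2, fun x hx => hmin x (by simp [hx])⟩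
  choose r hr1 hr2 using hr
  have hrN : ∀ v, N v → r v = v := by
    intro v hv
    have h1 := hr2 v v hv
    rw [hself] at h1
    exact ((hσe v (r v)).mp (le_antisymm h1 (hσ0 _ _))).symm
  -- acyclic flow
  have hw : ∀ u v, 0 ≤ σ u v ^ s := fun u v => Real.rpow_nonneg (hσ0 _ _) _
  obtain ⟨F', hdv, hcost, hNC⟩ := exists_noCirc hp hp1 hw F
  have h2e : (0 : ℝ) < 2 * Real.exp 1 := by positivity
  refine le_trans ?_ (mul_le_mul_of_nonneg_left hcost (Real.rpow_nonneg h2e.le s))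
  have hdvsum : ∑ v, dvg F v • f v = ∑ v, dvg F' v • f v := by simp only [hdv]
  have hF' : ∀ v, ¬ N v → dvg F' v = 0 := fun v hv => by rw [hdv]; exact hF v hv
  rw [hdvsum]
  obtain ⟨τ, g, hg, hc⟩ := retraction hNC hσ0 hσs hσt hr1 hrN hr2 hself univ
  set T : ℝ := NY (∑ v, dvg F' v • f v) ^ p with hT
  set cc : V × V → ℝ := fun e => 2 * Real.exp 1 * σ e.1 e.2 with hcc
  have hccpos : ∀ e ∈ spt F', 0 < cc e := by
    intro e he
    have h1 : F' e.1 e.2 ≠ 0 := (mem_filter.mp he).2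
    have h2 : e.1 ≠ e.2 := by
      intro h; rw [h] at h1; exact h1 (noLoop hNC e.2)
    have h3 : 0 < σ e.1 e.2 := lt_of_le_of_ne (hσ0 _ _) fun h => h2 ((hσe _ _).mp h.symm)
    exact mul_pos h2e h3
  -- pointwise bound
  have hpt : ∀ U : ℝ, T ≤ ∑ e ∈ spt F', |F' e.1 e.2| ^ p *
      (s * cc e ^ (s - 1) * g e.1 e.2 U + (1 - s) * cc e ^ s) := by
    intro U
    obtain ⟨c, hc1, hc2, -, hc4⟩ := hc U
    have e1 : ∑ v, dvg F' v • f v = ∑ v, dvg F' v • f (c v) := by
      refine sum_congr rfl fun v _ => ?_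
      by_cases hv : N v
      · rw [hc2 v hv]
      · rw [hF' v hv, zero_smul, zero_smul]
    have e2 : ∑ v, dvg F' v • f (c v) = ∑ e ∈ spt F', F' e.1 e.2 • (f (c e.2) - f (c e.1)) := by
      rw [push F' (fun v => f (c v)), ← Finset.sum_product', Finset.univ_product_univ, spt,
        Finset.sum_filter]
      refine sum_congr rfl fun e _ => ?_
      split_ifs with h
      · rfl
      · push Not at h
        rw [h, zero_smul]
    rw [hT, e1, e2]
    refine (norm_sum_le hp hN _ _).trans (sum_le_sum fun e he => ?_)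
    rw [hN.smul, Real.mul_rpow (abs_nonneg _) (hN.nonneg _)]
    refine mul_le_mul_of_nonneg_left ?_ (Real.rpow_nonneg (abs_nonneg _) _)
    have h1 : F' e.1 e.2 ≠ 0 := (mem_filter.mp he).2
    have h2 := hc4 e.1 (mem_univ _) e.2 (mem_univ _) h1
    have h3 : 0 ≤ g e.1 e.2 U := le_trans (hσ0 _ _) h2
    calc NY (f (c e.2) - f (c e.1)) ^ p ≤ σ (c e.2) (c e.1) ^ s := hf _ _ (hc1 _) (hc1 _)
      _ ≤ g e.1 e.2 U ^ s := by
          rw [hσs]
          exact Real.rpow_le_rpow (hσ0 _ _) h2 hs.le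
      _ ≤ _ := tangent hs.le hs1 h3 (hccpos e he)
  -- integrate
  have hint : ∀ e ∈ spt F', IntervalIntegrable (fun U => |F' e.1 e.2| ^ p *
      (s * cc e ^ (s - 1) * g e.1 e.2 U + (1 - s) * cc e ^ s)) volume 0 1 := by
    intro e he
    have h1 : F' e.1 e.2 ≠ 0 := (mem_filter.mp he).2
    exact (((hg e.1 (mem_univ _) e.2 (mem_univ _) h1).1.const_mul _).add
      (by simp)).const_mul _
  have hI : T ≤ ∫ U in (0 : ℝ)..1, ∑ e ∈ spt F', |F' e.1 e.2| ^ p *
      (s * cc e ^ (s - 1) * g e.1 e.2 U + (1 - s) * cc e ^ s) := by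
    have h1 : T = ∫ U in (0 : ℝ)..1, T := by simp
    rw [h1]
    refine intervalIntegral.integral_mono_on zero_le_one (by simp) ?_ fun U _ => hpt U
    have e : (fun U : ℝ => ∑ e ∈ spt F', |F' e.1 e.2| ^ p *
        (s * cc e ^ (s - 1) * g e.1 e.2 U + (1 - s) * cc e ^ s))
        = ∑ e ∈ spt F', fun U : ℝ => |F' e.1 e.2| ^ p *
        (s * cc e ^ (s - 1) * g e.1 e.2 U + (1 - s) * cc e ^ s) := by
      funext U
      rw [Finset.sum_apply]
    rw [e]
    exact IntervalIntegrable.sum _ hint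
  refine hI.trans ?_
  rw [intervalIntegral.integral_finsetSum hint, cst_eq_spt hp, mul_sum]
  refine sum_le_sum fun e he => ?_
  have h1 : F' e.1 e.2 ≠ 0 := (mem_filter.mp he).2
  obtain ⟨hgi, hgb⟩ := hg e.1 (mem_univ _) e.2 (mem_univ _) h1
  rw [intervalIntegral.integral_const_mul, intervalIntegral.integral_add (hgi.const_mul _) (by simp),
    intervalIntegral.integral_const_mul]
  simp only [intervalIntegral.integral_const, sub_zero, one_smul]
  have hc := hccpos e he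
  have h2 : s * cc e ^ (s - 1) * (∫ U in (0 : ℝ)..1, g e.1 e.2 U) ≤ s * cc e ^ (s - 1) * cc e :=
    mul_le_mul_of_nonneg_left hgb (mul_nonneg hs.le (Real.rpow_nonneg hc.le _))
  have h3 : s * cc e ^ (s - 1) * cc e = s * cc e ^ s := by
    rw [mul_assoc, Real.rpow_sub_one hc.ne']
    field_simp
  have h4 : cc e ^ s = (2 * Real.exp 1) ^ s * σ e.1 e.2 ^ s :=
    Real.mul_rpow h2e.le (hσ0 _ _)
  have h5 : 0 ≤ |F' e.1 e.2| ^ p := Real.rpow_nonneg (abs_nonneg _) _
  calc |F' e.1 e.2| ^ p * (s * cc e ^ (s - 1) * (∫ U in (0 : ℝ)..1, g e.1 e.2 U)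
        + (1 - s) * cc e ^ s)
      ≤ |F' e.1 e.2| ^ p * cc e ^ s := mul_le_mul_of_nonneg_left (by linarith) h5
    _ = _ := by rw [h4]; ring

end Pool.Agent.Y838.UB
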