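import Pool.Agent.Y838.UB.C
import Pool.Agent.H262.FK4

/-!
The amenability constants of arbitrary `q`-metric spaces.
-/

set_option autoImplicit false
set_option linter.unusedSectionVars false

open Finset
open scoped ENNReal

namespace Pool.Agent.Y838.UB

open Pool.Agent.H164R3.Amen

/-- the free `p`-norm is at least the infimum of the costs of all representing flows -/
theorem le_freeNorm {p : ℝ} (hp : 0 < p) (hp1 : p ≤ 1) {M : Type} {d : M → M → ℝ}
    (hd0 : ∀ x y, 0 ≤ d x y) (o : M) (v : M →₀ ℝ) :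
    ENNReal.ofReal ((Pool.Agent.H262.FP.nn p (fun e => d e.1 e.2 ^ p) o v) ^ (1 / p))
      ≤ freeNorm p d o v := by
  classical
  have hω : ∀ e : M × M, 0 ≤ d e.1 e.2 ^ p := fun e => Real.rpow_nonneg (hd0 _ _) _
  have hPF := Pool.Agent.H262.FP.isPF_nn hp hp1 hω o
  have hPFK : Pool.Agent.H262.FP.IsPFK ℝ p
      (Pool.Agent.H262.FP.nn p (fun e : M × M => d e.1 e.2 ^ p) o) :=
    { nonneg := hPF.nonneg
      add_le := hPF.add_le
      smul := fun t v => by rw [Real.norm_eq_abs]; exact hPF.smul t v }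
  obtain ⟨G, i1, i2, NG, j, hG, hj, -, -⟩ := Pool.Agent.H262.FP.exists_completion hp hPFK
  have hG' : IsPBanach p NG :=
    { nonneg := hG.nonneg
      eq_zero_iff := hG.eq_zero_iff
      smul := fun t y => by rw [← Real.norm_eq_abs]; exact hG.smul t y
      add := hG.add_le
      complete := fun u hu => by
        obtain ⟨z, hz⟩ := hG.complete u hu
        refine ⟨z, fun ε hε => ?_⟩
        have := hz.eventually (gt_mem_nhds hε)
        rw [Filter.eventually_atTop] at this
        exact this }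
  have hjo : j (Finsupp.single o 1) = 0 := by
    rw [← hG.eq_zero_iff]
    have h1 := hj (Finsupp.single o 1)
    rw [show Finsupp.single o (1 : ℝ) = Pool.Agent.H262.FP.dl o from rfl,
      Pool.Agent.H262.FP.nn_base hω, Real.rpow_eq_zero (hG.nonneg _) hp.ne'] at h1
    exact h1
  rw [freeNorm]
  refine le_iSup_of_le G (le_iSup_of_le i1 (le_iSup_of_le i2 (le_iSup_of_le NG
    (le_iSup_of_le hG' (le_iSup_of_le (fun s => j (Finsupp.single s 1)) (le_iSup_of_le hjo
      (le_iSup_of_le ?_ ?_)))))))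
  · intro x y
    have h1 := Pool.Agent.H262.FP.nn_ed_le hp hω o (x, y)
    have h2 : NG (j (Finsupp.single x 1) - j (Finsupp.single y 1)) ^ p ≤ d x y ^ p := by
      rw [← map_sub, hj]; exact h1
    exact (Real.rpow_le_rpow_iff (hG.nonneg _) (hd0 _ _) hp).mp h2
  · apply ENNReal.ofReal_le_ofReal
    have h1 : (v.sum fun x a => a • j (Finsupp.single x 1)) = j v := by
      conv_rhs => rw [← Finsupp.sum_single v, Finsupp.sum, map_sum]
      rw [Finsupp.sum]
      refine sum_congr rfl fun x _ => ?_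
      rw [← map_smul, Finsupp.smul_single, smul_eq_mul, mul_one]
    rw [h1, ← hj v, ← Real.rpow_mul (hG.nonneg _), mul_one_div_cancel hp.ne', Real.rpow_one]

/-- the cost of the push-forward of an arbitrary finite representation -/
theorem rep_bound {p q : ℝ} (hp : 0 < p) (hp1 : p ≤ 1) (hpq : p ≤ q) {M : Type}
    {d : M → M → ℝ} (hd : IsRMetric q d) {o : M} {S : Set M} (ho : o ∈ S)
    {Y : Type} [AddCommGroup Y] [Module ℝ Y] {NY : Y → ℝ} (hN : IsPBanach p NY)
    {f : S → Y} (hfo : f ⟨o, ho⟩ = 0) (hf : ∀ x y, NY (f x - f y) ≤ d x y)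
    (μ : S →₀ ℝ) (F : (M × M) →₀ ℝ) (t : ℝ)
    (hrep : μ.mapDomain Subtype.val = Pool.Agent.H262.FP.bd F + t • Pool.Agent.H262.FP.dl o) :
    NY (μ.sum fun x a => a • f x) ^ p
      ≤ (2 * Real.exp 1) ^ (p / q) * Pool.Agent.H262.FP.cost p (fun e => d e.1 e.2 ^ p) F := by
  classical
  have hq : 0 < q := hp.trans_le hpq
  -- the finite vertex set
  set W : Finset M := F.support.image Prod.fst ∪ F.support.image Prod.snd
    ∪ (μ.support.image Subtype.val) ∪ {o} with hW
  have hoW : o ∈ W := by simp [hW]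
  have hF1 : ∀ e ∈ F.support, e.1 ∈ W ∧ e.2 ∈ W := by
    intro e he
    constructor
    · simp only [hW, mem_union, mem_image]
      exact Or.inl (Or.inl (Or.inl ⟨e, he, rfl⟩))
    · simp only [hW, mem_union, mem_image]
      exact Or.inl (Or.inl (Or.inr ⟨e, he, rfl⟩))
  have hμW : ∀ x ∈ μ.support, (x : M) ∈ W := by
    intro x hx
    simp only [hW, mem_union, mem_image]
    exact Or.inl (Or.inr ⟨x, hx, rfl⟩)
  set V := {x : M // x ∈ W} with hV
  -- metric
  set σ : V → V → ℝ := fun u v => d u v ^ q with hσ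
  have hσ0 : ∀ u v, 0 ≤ σ u v := fun u v => Real.rpow_nonneg (hd.nonneg _ _) _
  have hσe : ∀ u v, σ u v = 0 ↔ u = v := by
    intro u v
    rw [hσ]
    simp only
    rw [Real.rpow_eq_zero (hd.nonneg _ _) hq.ne', hd.eq_zero_iff]
    exact Subtype.ext_iff.symm
  have hσs : ∀ u v, σ u v = σ v u := fun u v => by simp only [hσ]; rw [hd.symm]
  have hσt : ∀ u v z, σ u z ≤ σ u v + σ v z := fun u v z => hd.triangle _ _ _
  -- flow
  set F' : V → V → ℝ := fun u v => F ((v : M), (u : M)) with hF'
  set g : V → Y := fun v => if h : (v : M) ∈ S then f ⟨v, h⟩ else 0 with hg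
  have hbd : ∀ x : V, (Pool.Agent.H262.FP.bd F) (x : M) = dvg F' x := by
    intro x
    rw [Pool.Agent.H262.FP.bd_apply, Finsupp.finsetSum_apply]
    have h1 : ∀ e ∈ F.support, (F e • Pool.Agent.H262.FP.ed e) (x : M)
        = (if e.1 = (x : M) then F e else 0) - (if e.2 = (x : M) then F e else 0) := by
      intro e _
      rw [Finsupp.smul_apply, Pool.Agent.H262.FP.ed, Finsupp.sub_apply, Finsupp.single_apply,
        Finsupp.single_apply, smul_eq_mul]
      split_ifs <;> ring
    rw [sum_congr rfl h1, sum_sub_distrib, dvg, sum_sub_distrib]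
    congr 1
    · -- edges ending at x
      rw [← Finset.sum_filter]
      have h2 : ∑ u : V, F' u x = ∑ u ∈ W, F ((x : M), u) := by
        rw [← Finset.sum_coe_sort W (fun u => F ((x : M), u))]
      rw [h2]
      symm
      rw [← Finset.sum_filter_ne_zero]
      refine Finset.sum_bij (fun u _ => ((x : M), u)) ?_ ?_ ?_ ?_
      · intro u hu
        rw [mem_filter] at hu ⊢
        exact ⟨Finsupp.mem_support_iff.mpr hu.2, rfl⟩
      · intro u _ u' _ h
        exact (Prod.mk.inj h).2
      · intro e he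
        rw [mem_filter] at he
        refine ⟨e.2, ?_, ?_⟩
        · rw [mem_filter]
          refine ⟨(hF1 e he.1).2, ?_⟩
          rw [← he.2]
          exact Finsupp.mem_support_iff.mp he.1
        · rw [← he.2]
      · intro u _; rfl
    · rw [← Finset.sum_filter]
      have h2 : ∑ u : V, F' x u = ∑ u ∈ W, F (u, (x : M)) := by
        rw [← Finset.sum_coe_sort W (fun u => F (u, (x : M)))]
      rw [h2]
      symm
      rw [← Finset.sum_filter_ne_zero]
      refine Finset.sum_bij (fun u _ => (u, (x : M))) ?_ ?_ ?_ ?_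
      · intro u hu
        rw [mem_filter] at hu ⊢
        exact ⟨Finsupp.mem_support_iff.mpr hu.2, rfl⟩
      · intro u _ u' _ h
        exact (Prod.mk.inj h).1
      · intro e he
        rw [mem_filter] at he
        refine ⟨e.1, ?_, ?_⟩
        · rw [mem_filter]
          refine ⟨(hF1 e he.1).1, ?_⟩
          rw [← he.2]
          exact Finsupp.mem_support_iff.mp he.1
        · rw [← he.2]
      · intro u _; rfl
  have hmass : ∀ x : V, dvg F' x = (μ.mapDomain Subtype.val) (x : M) - t * (if (x : M) = o then 1 else 0) := by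
    intro x
    rw [← hbd, hrep, Finsupp.add_apply, Finsupp.smul_apply, Finsupp.single_apply, smul_eq_mul]
    by_cases h : o = (x : M)
    · rw [if_pos h, if_pos h.symm]; ring
    · rw [if_neg h, if_neg (Ne.symm h)]; ring
  have hmapS : ∀ x : M, x ∉ S → (μ.mapDomain Subtype.val) x = 0 := by
    intro x hx
    apply Finsupp.mapDomain_of_notMem_range
    rintro ⟨y, rfl⟩
    exact hx y.2
  have hF0 : ∀ v : V, ¬ ((v : M) ∈ S) → dvg F' v = 0 := by
    intro v hv
    have hvo : (v : M) ≠ o := fun h => hv (by rw [h]; exact ho)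
    rw [hmass, hmapS _ hv, if_neg hvo]; ring
  -- the vector
  have hvec : ∑ v : V, dvg F' v • g v = μ.sum fun x a => a • f x := by
    have h1 : ∀ v : V, dvg F' v • g v = (μ.mapDomain Subtype.val) (v : M) • g v := by
      intro v
      rw [hmass, sub_smul]
      by_cases h : (v : M) = o
      · have : g v = 0 := by
          simp only [hg, h, ho, dite_true]
          exact hfo
        rw [this, smul_zero, smul_zero, sub_zero]
      · rw [if_neg h, mul_zero, zero_smul, sub_zero]
    rw [sum_congr rfl fun v _ => h1 v]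
    set gM : M → Y := fun v => if h : v ∈ S then f ⟨v, h⟩ else 0 with hgM
    have h2 : ∑ v : V, (μ.mapDomain Subtype.val) (v : M) • g v
        = ∑ v ∈ W, (μ.mapDomain Subtype.val) v • gM v := by
      rw [← Finset.sum_coe_sort W (fun v => (μ.mapDomain Subtype.val) v • gM v)]
    have h3 : ∑ v ∈ W, (μ.mapDomain Subtype.val) v • gM v
        = (μ.mapDomain Subtype.val).sum fun v a => a • gM v := by
      rw [Finsupp.sum]
      symm
      apply Finset.sum_subset
      · intro x hx
        have h4 := Finsupp.mapDomain_support hx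
        rw [mem_image] at h4
        obtain ⟨y, hy, rfl⟩ := h4
        exact hμW y hy
      · intro x _ hx
        rw [Finsupp.notMem_support_iff] at hx
        rw [hx, zero_smul]
    rw [h2, h3, Finsupp.sum_mapDomain_index (by simp) (by intro a b1 b2; rw [add_smul])]
    rw [Finsupp.sum, Finsupp.sum]
    refine sum_congr rfl fun x _ => ?_
    simp [hgM]
  have hf' : ∀ u v : V, (u : M) ∈ S → (v : M) ∈ S → NY (g u - g v) ^ p ≤ σ u v ^ (p / q) := by
    intro u v hu hv
    have h1 : g u - g v = f ⟨u, hu⟩ - f ⟨v, hv⟩ := by simp [hg, hu, hv]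
    have h2 : σ u v ^ (p / q) = d u v ^ p := by
      simp only [hσ]
      rw [← Real.rpow_mul (hd.nonneg _ _)]
      congr 1
      field_simp
    rw [h1, h2]
    exact Real.rpow_le_rpow (hN.nonneg _) (hf _ _) hp.le
  have hmain := core (V := V) (s := p / q) hp hp1 (div_pos hp hq) ((div_le_one hq).mpr hpq) hN hσ0 hσe hσs hσt
    (N := fun v => (v : M) ∈ S) ⟨⟨o, hoW⟩, ho⟩ hf' hF0
  rw [hvec] at hmain
  refine hmain.trans (mul_le_mul_of_nonneg_left ?_ (Real.rpow_nonneg (by positivity) _))
  -- the cost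
  have h1 : cst p (fun u v : V => σ u v ^ (p / q)) F'
      = ∑ u ∈ W, ∑ v ∈ W, |F (v, u)| ^ p * d u v ^ p := by
    rw [cst, ← Finset.sum_coe_sort W (fun u => ∑ v ∈ W, |F (v, u)| ^ p * d u v ^ p)]
    refine sum_congr rfl fun u _ => ?_
    rw [← Finset.sum_coe_sort W (fun v => |F (v, (u : M))| ^ p * d u v ^ p)]
    refine sum_congr rfl fun v _ => ?_
    have h2 : σ u v ^ (p / q) = d u v ^ p := by
      simp only [hσ]
      rw [← Real.rpow_mul (hd.nonneg _ _)]
      congr 1
      field_simp
    rw [h2]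
  rw [h1, Pool.Agent.H262.FP.cost_eq_sum hp (S := W ×ˢ W), Finset.sum_product, sum_comm]
  · refine le_of_eq (sum_congr rfl fun u _ => sum_congr rfl fun v _ => ?_)
    rw [hd.symm]
  · intro e he
    rw [mem_product]
    exact hF1 e he

/-- **Main theorem.** -/
theorem am_le {p q : ℝ} (hp : 0 < p) (hpq : p ≤ q) (hq1 : q ≤ 1) {M : Type}
    {d : M → M → ℝ} (hd : IsRMetric q d) (o : M) (S : Set M) (ho : o ∈ S) :
    am p d o S ho ≤ ENNReal.ofReal ((2 * Real.exp 1) ^ (1 / q)) := by
  have hp1 : p ≤ 1 := hpq.trans hq1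
  have hq : 0 < q := hp.trans_le hpq
  have h2e : (0 : ℝ) < 2 * Real.exp 1 := by positivity
  rw [am]
  refine iSup_le fun μ => iSup_le fun _ => ?_
  apply ENNReal.div_le_of_le_mul
  refine le_trans ?_ (mul_le_mul_right (le_freeNorm hp hp1 hd.nonneg o (μ.mapDomain Subtype.val)) _)
  rw [freeNorm]
  refine iSup_le fun Y => iSup_le fun i1 => iSup_le fun i2 => iSup_le fun NY => iSup_le fun hN =>
    iSup_le fun f => iSup_le fun hfo => iSup_le fun hf => ?_
  have hω : ∀ e : M × M, 0 ≤ d e.1 e.2 ^ p := fun e => Real.rpow_nonneg (hd.nonneg _ _) _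
  set n := Pool.Agent.H262.FP.nn p (fun e : M × M => d e.1 e.2 ^ p) o (μ.mapDomain Subtype.val) with hn
  have hn0 : 0 ≤ n := Pool.Agent.H262.FP.nn_nonneg hω o _
  rw [← ENNReal.ofReal_mul (Real.rpow_nonneg h2e.le _)]
  apply ENNReal.ofReal_le_ofReal
  have hC : 0 < (2 * Real.exp 1) ^ (p / q) := Real.rpow_pos_of_pos h2e _
  have key : NY (μ.sum fun x a => a • f x) ^ p ≤ (2 * Real.exp 1) ^ (p / q) * n := by
    rw [← div_le_iff₀' hC]
    refine le_csInf (Pool.Agent.H262.FP.costSet_nonempty o _) ?_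
    rintro c ⟨F, t, h1, rfl⟩
    rw [div_le_iff₀' hC]
    exact rep_bound hp hp1 hpq hd ho hN hfo hf μ F t h1
  have h1 := Real.rpow_le_rpow (Real.rpow_nonneg (hN.nonneg _) _) key (show 0 ≤ 1 / p by positivity)
  rw [← Real.rpow_mul (hN.nonneg _), mul_one_div_cancel hp.ne', Real.rpow_one,
    Real.mul_rpow hC.le hn0, ← Real.rpow_mul h2e.le] at h1
  have h2 : p / q * (1 / p) = 1 / q := by field_simp
  rwa [h2] at h1

end Pool.Agent.Y838.UB
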