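import Pool.Agent.H164R3.AmLower
import Pool.Agent.H164R3.AmDefs

/-!
Lower bounds for flows between the leaves of a hierarchical tree.
-/

set_option autoImplicit false
set_option linter.unusedSectionVars false

open Finset

namespace Pool.Agent.Y838.UB

open Pool.Agent.H164R3.Amen

theorem e_log_le {θ : ℝ} (hθ : 0 < θ) (m : ℕ) : Real.exp 1 * (Real.log θ * m) ≤ θ ^ m := by
  have h1 : θ ^ m = Real.exp (Real.log θ * m) := by
    rw [← Real.rpow_natCast, Real.rpow_def_of_pos hθ]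
  rw [h1]
  have h2 := Real.add_one_le_exp (Real.log θ * m - 1)
  have h3 : Real.exp (Real.log θ * m) = Real.exp 1 * Real.exp (Real.log θ * m - 1) := by
    rw [← Real.exp_add]; congr 1; ring
  rw [h3]
  exact mul_le_mul_of_nonneg_left (by linarith) (Real.exp_pos 1).le

theorem geom_le {n : ℕ} (hn : 2 ≤ n) (i : ℕ) :
    ((n : ℝ) - 1) * ∑ j ∈ range i, (n : ℝ) ^ j ≤ (n : ℝ) ^ i := by
  have h := mul_geom_sum (n : ℝ) i
  linarith

/-- the pointwise inequality behind the dual certificate -/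
theorem pointwise {n : ℕ} (hn : 2 ≤ n) {θ p : ℝ} (hθ : 1 < θ) (hp : 0 < p) (hp1 : p < 1)
    (hnp : (n : ℝ) ^ (1 - p) ≤ θ) {lam : ℝ} (hlam0 : 0 ≤ lam)
    (hlam : lam * θ * n ≤ 2 * (Real.exp 1 * Real.log θ) * (n - 1)) (k : ℕ) {w : ℝ} (hw : 0 ≤ w) :
    lam * ∑ j ∈ range k, min w ((n : ℝ) ^ j) ≤ w ^ p * (2 * θ ^ k) := by
  have hn2 : (2 : ℝ) ≤ n := by exact_mod_cast hn
  have hn0 : (0 : ℝ) < n := by linarith
  have hθ0 : 0 < θ := by linarith
  set c : ℝ := Real.exp 1 * Real.log θ with hc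
  have hc0 : 0 ≤ c := mul_nonneg (Real.exp_pos 1).le (Real.log_nonneg hθ.le)
  have hcm : ∀ m : ℕ, c * m ≤ θ ^ m := fun m => by
    have := e_log_le hθ0 m
    rw [hc]; linarith
  -- lam is at most 2 c
  have hlam2 : lam ≤ 2 * c := by
    have h1 : lam * n ≤ lam * θ * n := by nlinarith [mul_nonneg hlam0 hn0.le]
    have h2 : 2 * c * (n - 1) ≤ 2 * c * n := by nlinarith
    have h3 : lam * n ≤ 2 * c * n := by linarith
    exact le_of_mul_le_mul_right h3 hn0
  rcases hw.eq_or_lt with rfl | hw0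
  · have : ∑ j ∈ range k, min (0 : ℝ) ((n : ℝ) ^ j) = 0 :=
      sum_eq_zero fun j _ => min_eq_left (by positivity)
    rw [this, mul_zero]
    positivity
  rcases le_or_gt w 1 with hw1 | hw1
  · -- small loads
    have h1 : ∑ j ∈ range k, min w ((n : ℝ) ^ j) ≤ k * w := by
      calc ∑ j ∈ range k, min w ((n : ℝ) ^ j) ≤ ∑ j ∈ range k, w :=
            sum_le_sum fun j _ => min_le_left _ _
        _ = k * w := by rw [sum_const, card_range, nsmul_eq_mul]
    have h2 : w ≤ w ^ p := by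
      nth_rewrite 1 [← Real.rpow_one w]
      exact Real.rpow_le_rpow_of_exponent_ge hw0 hw1 hp1.le
    have h3 := hcm k
    have h4 : 0 ≤ (k : ℝ) := Nat.cast_nonneg k
    calc lam * ∑ j ∈ range k, min w ((n : ℝ) ^ j) ≤ lam * (k * w) :=
          mul_le_mul_of_nonneg_left h1 hlam0
      _ ≤ (2 * c) * (k * w) := mul_le_mul_of_nonneg_right hlam2 (by positivity)
      _ = w * (2 * (c * k)) := by ring
      _ ≤ w * (2 * θ ^ k) := mul_le_mul_of_nonneg_left (by linarith) hw0.le
      _ ≤ w ^ p * (2 * θ ^ k) := mul_le_mul_of_nonneg_right h2 (by positivity)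
  · -- large loads
    have hex : ∃ i : ℕ, w ≤ (n : ℝ) ^ i := by
      obtain ⟨i, hi⟩ := pow_unbounded_of_one_lt w (show (1 : ℝ) < n by linarith)
      exact ⟨i, hi.le⟩
    classical
    set i := Nat.find hex with hi
    have hi1 : w ≤ (n : ℝ) ^ i := Nat.find_spec hex
    have hi0 : i ≠ 0 := by
      intro h0
      rw [h0, pow_zero] at hi1
      linarith
    obtain ⟨i', hi'⟩ := Nat.exists_eq_succ_of_ne_zero hi0
    have hi2 : (n : ℝ) ^ i' < w := by
      by_contra hcon
      exact Nat.find_min hex (m := i') (by omega) (not_lt.mp hcon)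
    -- the discount
    have hdisc : ∀ m : ℕ, (n : ℝ) ^ m * (θ ^ m)⁻¹ ≤ ((n : ℝ) ^ m) ^ p := by
      intro m
      have h1 : ((n : ℝ) ^ m) ^ (1 - p) ≤ θ ^ m := by
        have e : ((n : ℝ) ^ m) ^ (1 - p) = ((n : ℝ) ^ (1 - p)) ^ m := by
          rw [← Real.rpow_natCast, ← Real.rpow_natCast, ← Real.rpow_mul hn0.le,
            ← Real.rpow_mul hn0.le, mul_comm]
        rw [e]
        exact pow_le_pow_left₀ (Real.rpow_nonneg hn0.le _) hnp m
      have h2 : 0 < (n : ℝ) ^ m := by positivity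
      have h3 : (n : ℝ) ^ m = ((n : ℝ) ^ m) ^ p * ((n : ℝ) ^ m) ^ (1 - p) := by
        rw [← Real.rpow_add h2, show p + (1 - p) = 1 by ring, Real.rpow_one]
      rw [← div_eq_mul_inv, div_le_iff₀ (by positivity)]
      nth_rewrite 1 [h3]
      exact mul_le_mul_of_nonneg_left h1 (Real.rpow_nonneg h2.le _)
    rcases le_or_gt i k with hik | hik
    · -- the sum
      have h1 : ∑ j ∈ range k, min w ((n : ℝ) ^ j) ≤ ∑ j ∈ range i, (n : ℝ) ^ j + (k - i) * w := by
        rw [← Finset.sum_range_add_sum_Ico _ hik]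
        refine add_le_add (sum_le_sum fun j _ => min_le_right _ _) ?_
        calc ∑ j ∈ Ico i k, min w ((n : ℝ) ^ j) ≤ ∑ j ∈ Ico i k, w :=
              sum_le_sum fun j _ => min_le_left _ _
          _ = (k - i) * w := by
              rw [sum_const, Nat.card_Ico, nsmul_eq_mul, Nat.cast_sub hik]
      have h2 := geom_le hn i
      have h3 : ((n : ℝ) - 1) * ∑ j ∈ range k, min w ((n : ℝ) ^ j) ≤ n * ((k - i + 1) * w) := by
        have h4 : (n : ℝ) ^ i ≤ n * w := by
          rw [hi', Nat.succ_eq_add_one, pow_succ]; nlinarith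
        have h5 : (0 : ℝ) ≤ (k : ℝ) - i := by
          have : (i : ℝ) ≤ k := by exact_mod_cast hik
          linarith
        have h6 := mul_le_mul_of_nonneg_left h1 (show 0 ≤ (n : ℝ) - 1 by linarith)
        nlinarith [mul_nonneg h5 hw]
      -- right-hand side
      have h7 : w * (θ ^ i)⁻¹ ≤ w ^ p := by
        have h8 : w ^ (1 - p) ≤ θ ^ i := by
          calc w ^ (1 - p) ≤ ((n : ℝ) ^ i) ^ (1 - p) :=
                Real.rpow_le_rpow hw hi1 (by linarith)
            _ = ((n : ℝ) ^ (1 - p)) ^ i := by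
                rw [← Real.rpow_natCast, ← Real.rpow_natCast, ← Real.rpow_mul hn0.le,
                  ← Real.rpow_mul hn0.le, mul_comm]
            _ ≤ θ ^ i := pow_le_pow_left₀ (Real.rpow_nonneg hn0.le _) hnp i
        have h9 : w = w ^ p * w ^ (1 - p) := by
          rw [← Real.rpow_add hw0, show p + (1 - p) = 1 by ring, Real.rpow_one]
        rw [← div_eq_mul_inv, div_le_iff₀ (by positivity)]
        nth_rewrite 1 [h9]
        exact mul_le_mul_of_nonneg_left h8 (Real.rpow_nonneg hw _)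
      have h10 := hcm (k - i + 1)
      rw [Nat.cast_add, Nat.cast_sub hik, Nat.cast_one] at h10
      have h11 : θ ^ k = θ ^ (k - i) * θ ^ i := by rw [← pow_add]; congr 1; omega
      have h12 : w * (2 * θ ^ (k - i)) ≤ w ^ p * (2 * θ ^ k) := by
        calc w * (2 * θ ^ (k - i)) = (w * (θ ^ i)⁻¹) * (2 * θ ^ k) := by
              rw [h11]; field_simp
          _ ≤ _ := mul_le_mul_of_nonneg_right h7 (by positivity)
      refine le_trans ?_ h12
      -- lam * S ≤ w * 2 θ^(k-i)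
      have h13 : 0 < θ * ((n : ℝ) - 1) := mul_pos hθ0 (by linarith)
      refine le_of_mul_le_mul_left ?_ h13
      have h14 : (0 : ℝ) ≤ (k : ℝ) - i + 1 := by
        have : (i : ℝ) ≤ k := by exact_mod_cast hik
        linarith
      calc θ * ((n : ℝ) - 1) * (lam * ∑ j ∈ range k, min w ((n : ℝ) ^ j))
          = (lam * θ) * (((n : ℝ) - 1) * ∑ j ∈ range k, min w ((n : ℝ) ^ j)) := by ring
        _ ≤ (lam * θ) * (n * ((k - i + 1) * w)) :=
            mul_le_mul_of_nonneg_left h3 (mul_nonneg hlam0 hθ0.le)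
        _ = (lam * θ * n) * ((k - i + 1) * w) := by ring
        _ ≤ (2 * c * (n - 1)) * ((k - i + 1) * w) :=
            mul_le_mul_of_nonneg_right hlam (mul_nonneg h14 hw)
        _ = (n - 1) * (2 * w) * (c * (k - i + 1)) := by ring
        _ ≤ (n - 1) * (2 * w) * θ ^ (k - i + 1) :=
            mul_le_mul_of_nonneg_left h10 (mul_nonneg (by linarith) (by linarith))
        _ = θ * ((n : ℝ) - 1) * (w * (2 * θ ^ (k - i))) := by rw [pow_succ]; ring
    · -- i > k
      have h1 : ∑ j ∈ range k, min w ((n : ℝ) ^ j) ≤ ∑ j ∈ range k, (n : ℝ) ^ j :=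
        sum_le_sum fun j _ => min_le_right _ _
      have h2 := geom_le hn k
      have h3 : (n : ℝ) ^ k ≤ w := by
        refine le_trans ?_ hi2.le
        exact pow_le_pow_right₀ (by linarith) (by omega)
      have h4 : (n : ℝ) ^ k * (θ ^ k)⁻¹ ≤ w ^ p :=
        (hdisc k).trans (Real.rpow_le_rpow (by positivity) h3 hp.le)
      have h5 : 2 * (n : ℝ) ^ k ≤ w ^ p * (2 * θ ^ k) := by
        calc 2 * (n : ℝ) ^ k = ((n : ℝ) ^ k * (θ ^ k)⁻¹) * (2 * θ ^ k) := by field_simp
          _ ≤ _ := mul_le_mul_of_nonneg_right h4 (by positivity)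
      refine le_trans ?_ h5
      have h13 : 0 < θ * ((n : ℝ) - 1) := mul_pos hθ0 (by linarith)
      refine le_of_mul_le_mul_left ?_ h13
      have h6 : ((n : ℝ) - 1) * ∑ j ∈ range k, min w ((n : ℝ) ^ j) ≤ (n : ℝ) ^ k :=
        (mul_le_mul_of_nonneg_left h1 (by linarith)).trans h2
      have h7 := hcm 1
      rw [Nat.cast_one, mul_one, pow_one] at h7
      have h8 : lam * θ ≤ 2 * c := by
        have : lam * θ * n ≤ 2 * c * n := by nlinarith
        exact le_of_mul_le_mul_right this hn0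
      have h9 : 0 ≤ (n : ℝ) ^ k := by positivity
      calc θ * ((n : ℝ) - 1) * (lam * ∑ j ∈ range k, min w ((n : ℝ) ^ j))
          = (lam * θ) * (((n : ℝ) - 1) * ∑ j ∈ range k, min w ((n : ℝ) ^ j)) := by ring
        _ ≤ (lam * θ) * (n : ℝ) ^ k := mul_le_mul_of_nonneg_left h6 (mul_nonneg hlam0 hθ0.le)
        _ ≤ (2 * c) * (n : ℝ) ^ k := mul_le_mul_of_nonneg_right h8 h9
        _ ≤ (2 * θ) * (n : ℝ) ^ k := mul_le_mul_of_nonneg_right (by linarith) h9
        _ ≤ θ * ((n : ℝ) - 1) * (2 * (n : ℝ) ^ k) := by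
            nlinarith [mul_nonneg hθ0.le h9, mul_nonneg (mul_nonneg hθ0.le h9) (show 0 ≤ (n : ℝ) - 2 by linarith)]

/-- truncation of a finite sum -/
theorem le_sum_min {ι : Type*} (s : Finset ι) (a : ι → ℝ) (ha : ∀ i ∈ s, 0 ≤ a i) {B : ℝ}
    (hB : 0 ≤ B) (h : B ≤ ∑ i ∈ s, a i) : B ≤ ∑ i ∈ s, min (a i) B := by
  classical
  by_cases hex : ∃ i ∈ s, B ≤ a i
  · obtain ⟨i, hi, hBi⟩ := hex
    calc B = min (a i) B := (min_eq_right hBi).symm
      _ ≤ _ := single_le_sum (f := fun i => min (a i) B) (fun j hj => le_min (ha j hj) hB) hi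
  · push Not at hex
    rw [sum_congr rfl fun i hi => min_eq_left (hex i hi).le]
    exact h

end Pool.Agent.Y838.UB
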