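import Pool.Agent.Y838.UB.E

/-!
The cost of a flow delivering one unit at each of the `n ^ L` leaves.
-/

set_option autoImplicit false
set_option linter.unusedSectionVars false

open Finset

namespace Pool.Agent.Y838.UB

open Pool.Agent.H164R3.Amen

/-- label of the cluster of level `j` -/
def cl (n j : ℕ) {N : ℕ} (u : Option (Fin N)) : Option ℕ := u.map fun x => x.val / n ^ j

/-- orientation of a flow -/
theorem orient {L : Type} [Fintype L] [DecidableEq L] {p : ℝ} (hp : 0 < p) (hp1 : p ≤ 1)
    {w : Option L → Option L → ℝ} (hw : ∀ u v, 0 ≤ w u v) (hsymm : ∀ u v, w u v = w v u)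
    (F : Option L → Option L → ℝ) :
    ∃ I : Option L → Option L → ℝ, (∀ u v, 0 ≤ I u v) ∧
      (∀ x, ∑ u, (I u (some x) - I (some x) u) = dv F x) ∧
      ∑ u, ∑ v, I u v ^ p * w u v ≤ cost p w F := by
  set ν : Option L → Option L → ℝ := fun u v => F u v - F v u with hν
  set I : Option L → Option L → ℝ := fun u v => max (ν u v) 0 with hI
  have hanti : ∀ u v, I u v - I v u = ν u v := by
    intro u v
    simp only [hI]
    have : ν v u = - ν u v := by simp only [hν]; ring
    rw [this]
    rcases le_total 0 (ν u v) with h | h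
    · rw [max_eq_left h, max_eq_right (by linarith)]; ring
    · rw [max_eq_right h, max_eq_left (by linarith)]; ring
  refine ⟨I, fun u v => le_max_right _ _, fun x => ?_, ?_⟩
  · rw [dv]
    exact sum_congr rfl fun u _ => hanti _ _
  · have e1 : cost p w F = ∑ u, ∑ v, |F v u| ^ p * w u v := by
      rw [cost, sum_comm]
      refine sum_congr rfl fun u _ => sum_congr rfl fun v _ => ?_
      rw [hsymm v u]
    have e2 : ∑ u, ∑ v, I u v ^ p * w u v = ∑ u, ∑ v, I v u ^ p * w u v := by
      rw [sum_comm]
      refine sum_congr rfl fun u _ => sum_congr rfl fun v _ => ?_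
      rw [hsymm v u]
    have h3 : ∀ u v, I u v ^ p + I v u ^ p ≤ |F u v| ^ p + |F v u| ^ p := by
      intro u v
      have h4 : |F u v - F v u| ^ p ≤ |F u v| ^ p + |F v u| ^ p := by
        have := abs_add_rpow_le (x := F u v) (y := - F v u) hp hp1
        rwa [abs_neg, ← sub_eq_add_neg] at this
      refine le_trans ?_ h4
      rcases le_total 0 (F u v - F v u) with h | h
      · have a1 : I u v = F u v - F v u := by simp only [hI, hν]; exact max_eq_left h
        have a2 : I v u = 0 := by simp only [hI, hν]; exact max_eq_right (by linarith)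
        rw [a1, a2, Real.zero_rpow hp.ne', abs_of_nonneg h, add_zero]
      · have a1 : I v u = -(F u v - F v u) := by
          simp only [hI, hν]; rw [max_eq_left (by linarith)]; ring
        have a2 : I u v = 0 := by simp only [hI, hν]; exact max_eq_right h
        rw [a1, a2, Real.zero_rpow hp.ne', abs_of_nonpos h, zero_add]
    have h5 : 2 * ∑ u, ∑ v, I u v ^ p * w u v ≤ 2 * cost p w F := by
      have e3 : 2 * ∑ u, ∑ v, I u v ^ p * w u v = ∑ u, ∑ v, (I u v ^ p + I v u ^ p) * w u v := by
        rw [two_mul]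
        nth_rewrite 2 [e2]
        simp only [← sum_add_distrib, add_mul]
      have e4 : 2 * cost p w F = ∑ u, ∑ v, (|F u v| ^ p + |F v u| ^ p) * w u v := by
        rw [two_mul]
        nth_rewrite 2 [e1]
        rw [cost]
        simp only [← sum_add_distrib, add_mul]
      rw [e3, e4]
      exact sum_le_sum fun u _ => sum_le_sum fun v _ =>
        mul_le_mul_of_nonneg_right (h3 u v) (hw _ _)
    linarith

theorem card_cluster {N b z : ℕ} (hb : 0 < b) (hz : (z + 1) * b ≤ N) :
    ((univ : Finset (Fin N)).filter fun x => x.val / b = z).card = b := by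
  have h1 : ((univ : Finset (Fin N)).filter fun x => x.val / b = z).card
      = (Ico (z * b) (z * b + b)).card := by
    refine Finset.card_bij (fun x _ => x.val) ?_ ?_ ?_
    · intro x hx
      rw [mem_filter] at hx
      rw [mem_Ico]
      have h2 := Nat.div_add_mod x.val b
      have h3 := Nat.mod_lt x.val hb
      rw [hx.2] at h2
      constructor
      · rw [← h2, mul_comm]; omega
      · rw [← h2, mul_comm z b]; omega
    · intro x _ y _ h
      exact Fin.ext h
    · intro y hy
      rw [mem_Ico] at hy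
      have h2 : y < N := by
        have : (z + 1) * b = z * b + b := by ring
        omega
      refine ⟨⟨y, h2⟩, ?_, rfl⟩
      rw [mem_filter]
      refine ⟨mem_univ _, ?_⟩
      show y / b = z
      exact Nat.div_eq_of_lt_le hy.1 (by rw [add_mul, one_mul]; exact hy.2)
  rw [h1, Nat.card_Ico]
  omega

/-- the flow which crosses the boundaries of the clusters of level `j` -/
theorem level_lower {n L j : ℕ} (hn : 0 < n) (hj : j ≤ L)
    {I : Option (Fin (n ^ L)) → Option (Fin (n ^ L)) → ℝ} (hI : ∀ u v, 0 ≤ I u v)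
    (hdv : ∀ x, ∑ u, (I u (some x) - I (some x) u) = 1) :
    (n : ℝ) ^ L ≤ ∑ x : Fin (n ^ L), ∑ u ∈ univ.filter (fun u => cl n j u ≠ cl n j (some x)),
      min (I u (some x)) ((n : ℝ) ^ j) := by
  classical
  have hb : 0 < n ^ j := pow_pos hn j
  have hN : n ^ (L - j) * n ^ j = n ^ L := by rw [← pow_add]; congr 1; omega
  -- one cluster
  have hone : ∀ z ∈ range (n ^ (L - j)), (n : ℝ) ^ j ≤
      ∑ x ∈ (univ : Finset (Fin (n ^ L))).filter (fun x => x.val / n ^ j = z),
        ∑ u ∈ univ.filter (fun u => cl n j u ≠ cl n j (some x)),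
          min (I u (some x)) ((n : ℝ) ^ j) := by
    intro z hz
    rw [mem_range] at hz
    set C := (univ : Finset (Fin (n ^ L))).filter (fun x => x.val / n ^ j = z) with hC
    set D := (univ : Finset (Option (Fin (n ^ L)))).filter (fun u => cl n j u ≠ some z) with hD
    have hcard : C.card = n ^ j := card_cluster hb (by
      rw [← hN]; exact Nat.mul_le_mul_right _ (by omega))
    have hfilter : ∀ x ∈ C, univ.filter (fun u => cl n j u ≠ cl n j (some x)) = D := by
      intro x hx
      have h1 : cl n j (some x) = some z := by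
        rw [cl, Option.map_some, (mem_filter.mp hx).2]
      rw [h1]
    have e1 : ∑ x ∈ C, ∑ u ∈ univ.filter (fun u => cl n j u ≠ cl n j (some x)),
        min (I u (some x)) ((n : ℝ) ^ j)
        = ∑ e ∈ C ×ˢ D, min (I e.2 (some e.1)) ((n : ℝ) ^ j) := by
      rw [Finset.sum_product]
      exact sum_congr rfl fun x hx => by rw [hfilter x hx]
    rw [e1]
    refine le_sum_min _ _ (fun e _ => hI _ _) (by positivity) ?_
    rw [Finset.sum_product]
    -- total flow into C
    have h1 : ∑ x ∈ C, ∑ u, (I u (some x) - I (some x) u) = (n : ℝ) ^ j := by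
      rw [sum_congr rfl fun x _ => hdv x, sum_const, hcard, nsmul_eq_mul, mul_one, Nat.cast_pow]
    have hsplit : ∀ x, ∑ u, (I u (some x) - I (some x) u)
        = ∑ u ∈ D, (I u (some x) - I (some x) u)
          + ∑ y ∈ C, (I (some y) (some x) - I (some x) (some y)) := by
      intro x
      rw [← Finset.sum_filter_add_sum_filter_not univ (fun u => cl n j u ≠ some z)]
      congr 1
      have h2 : (univ : Finset (Option (Fin (n ^ L)))).filter (fun u => ¬ cl n j u ≠ some z)
          = C.map Function.Embedding.some := by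
        ext u
        rw [mem_filter, mem_map]
        constructor
        · rintro ⟨-, h3⟩
          rw [not_not] at h3
          rcases u with _ | y
          · simp [cl] at h3
          · refine ⟨y, ?_, rfl⟩
            rw [hC, mem_filter]
            exact ⟨mem_univ _, by simpa [cl] using h3⟩
        · rintro ⟨y, hy, rfl⟩
          refine ⟨mem_univ _, ?_⟩
          rw [not_not]
          show cl n j (some y) = some z
          rw [cl, Option.map_some, (mem_filter.mp hy).2]
      rw [h2, Finset.sum_map]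
      rfl
    have h3 : ∑ x ∈ C, ∑ y ∈ C, (I (some y) (some x) - I (some x) (some y)) = 0 := by
      simp only [sum_sub_distrib]
      rw [sub_eq_zero]
      exact sum_comm
    have h4 : ∑ x ∈ C, ∑ u ∈ D, (I u (some x) - I (some x) u) = (n : ℝ) ^ j := by
      rw [sum_congr rfl fun x _ => hsplit x, sum_add_distrib, h3, add_zero] at h1
      exact h1
    rw [← h4]
    refine sum_le_sum fun x _ => sum_le_sum fun u _ => ?_
    have := hI (some x) u
    linarith
  have hmaps : ∀ x ∈ (univ : Finset (Fin (n ^ L))), x.val / n ^ j ∈ range (n ^ (L - j)) := by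
    intro x _
    rw [mem_range, Nat.div_lt_iff_lt_mul hb, hN]
    exact x.2
  rw [← Finset.sum_fiberwise_of_maps_to hmaps]
  calc (n : ℝ) ^ L = ∑ z ∈ range (n ^ (L - j)), (n : ℝ) ^ j := by
        rw [sum_const, card_range, nsmul_eq_mul]
        exact_mod_cast hN.symm
    _ ≤ _ := sum_le_sum hone

/-- **Lower bound for the cost of a flow between the leaves.** -/
theorem flow_lower {n : ℕ} (hn : 2 ≤ n) (L : ℕ) {θ p : ℝ} (hθ : 1 < θ) (hp : 0 < p) (hp1 : p < 1)
    (hnp : (n : ℝ) ^ (1 - p) ≤ θ) {lam κ : ℝ} (hlam0 : 0 ≤ lam) (hκ : 0 ≤ κ)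
    (hlam : lam * θ * n ≤ 2 * (Real.exp 1 * Real.log θ) * (n - 1))
    {w : Option (Fin (n ^ L)) → Option (Fin (n ^ L)) → ℝ}
    (hw : ∀ u v, 0 ≤ w u v) (hsymm : ∀ u v, w u v = w v u)
    (hsep : ∀ (u : Option (Fin (n ^ L))) (x : Fin (n ^ L)) (j : ℕ), j < L →
      cl n j u ≠ cl n j (some x) → κ * (2 * θ ^ (j + 1)) ≤ w u (some x))
    (F : Option (Fin (n ^ L)) → Option (Fin (n ^ L)) → ℝ) (hF : ∀ x, dv F x = 1) :
    κ * lam * L * (n : ℝ) ^ L ≤ cost p w F := by
  classical
  obtain ⟨I, hI0, hdv, hcost⟩ := orient hp hp1.le hw hsymm F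
  have hdv1 : ∀ x, ∑ u, (I u (some x) - I (some x) u) = 1 := fun x => by rw [hdv, hF]
  refine le_trans ?_ hcost
  have hterm0 : ∀ u v, 0 ≤ I u v ^ p * w u v := fun u v =>
    mul_nonneg (Real.rpow_nonneg (hI0 _ _) _) (hw _ _)
  -- pointwise
  have hpt : ∀ (x : Fin (n ^ L)) (u : Option (Fin (n ^ L))),
      κ * lam * ∑ j ∈ (range L).filter (fun j => cl n j u ≠ cl n j (some x)),
        min (I u (some x)) ((n : ℝ) ^ j) ≤ I u (some x) ^ p * w u (some x) := by
    intro x u
    set J := (range L).filter (fun j => cl n j u ≠ cl n j (some x)) with hJ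
    rcases J.eq_empty_or_nonempty with h | h
    · rw [h, sum_empty, mul_zero]; exact hterm0 _ _
    · have hm := Finset.max'_mem J h
      set m := J.max' h with hmdef
      rw [hJ, mem_filter, mem_range] at hm
      have h1 : ∑ j ∈ J, min (I u (some x)) ((n : ℝ) ^ j)
          ≤ ∑ j ∈ range (m + 1), min (I u (some x)) ((n : ℝ) ^ j) := by
        refine sum_le_sum_of_subset_of_nonneg ?_ fun j _ _ => le_min (hI0 _ _) (by positivity)
        intro j hj
        rw [mem_range]
        have := Finset.le_max' J j hj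
        omega
      have h2 := pointwise hn hθ hp hp1 hnp hlam0 hlam (m + 1) (hI0 u (some x))
      have h3 := hsep u x m hm.1 hm.2
      calc κ * lam * ∑ j ∈ J, min (I u (some x)) ((n : ℝ) ^ j)
          ≤ κ * lam * ∑ j ∈ range (m + 1), min (I u (some x)) ((n : ℝ) ^ j) :=
            mul_le_mul_of_nonneg_left h1 (mul_nonneg hκ hlam0)
        _ = κ * (lam * ∑ j ∈ range (m + 1), min (I u (some x)) ((n : ℝ) ^ j)) := by ring
        _ ≤ κ * (I u (some x) ^ p * (2 * θ ^ (m + 1))) := mul_le_mul_of_nonneg_left h2 hκ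
        _ = I u (some x) ^ p * (κ * (2 * θ ^ (m + 1))) := by ring
        _ ≤ _ := mul_le_mul_of_nonneg_left h3 (Real.rpow_nonneg (hI0 _ _) _)
  -- sum over the pairs
  have hS : ∑ x : Fin (n ^ L), ∑ u, κ * lam *
      ∑ j ∈ (range L).filter (fun j => cl n j u ≠ cl n j (some x)),
        min (I u (some x)) ((n : ℝ) ^ j) ≤ ∑ u, ∑ v, I u v ^ p * w u v := by
    refine (sum_le_sum fun x _ => sum_le_sum fun u _ => hpt x u).trans ?_
    rw [sum_comm]
    refine sum_le_sum fun u _ => ?_
    rw [Fintype.sum_option]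
    have := hterm0 u none
    linarith
  refine le_trans ?_ hS
  have hswap : ∑ x : Fin (n ^ L), ∑ u, κ * lam *
      ∑ j ∈ (range L).filter (fun j => cl n j u ≠ cl n j (some x)),
        min (I u (some x)) ((n : ℝ) ^ j)
      = κ * lam * ∑ j ∈ range L, ∑ x : Fin (n ^ L),
        ∑ u ∈ univ.filter (fun u => cl n j u ≠ cl n j (some x)),
          min (I u (some x)) ((n : ℝ) ^ j) := by
    rw [Finset.sum_comm (s := range L), mul_sum]
    refine sum_congr rfl fun x _ => ?_
    rw [← mul_sum]
    congr 1
    simp only [Finset.sum_filter]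
    exact sum_comm
  rw [hswap]
  have h1 : (L : ℝ) * (n : ℝ) ^ L ≤ ∑ j ∈ range L, ∑ x : Fin (n ^ L),
        ∑ u ∈ univ.filter (fun u => cl n j u ≠ cl n j (some x)),
          min (I u (some x)) ((n : ℝ) ^ j) := by
    calc (L : ℝ) * (n : ℝ) ^ L = ∑ j ∈ range L, (n : ℝ) ^ L := by
          rw [sum_const, card_range, nsmul_eq_mul]
      _ ≤ _ := sum_le_sum fun j hj => level_lower (by omega) (mem_range.mp hj).le hI0 hdv1
  calc κ * lam * L * (n : ℝ) ^ L = κ * lam * (L * (n : ℝ) ^ L) := by ring
    _ ≤ _ := mul_le_mul_of_nonneg_left h1 (mul_nonneg hκ hlam0)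

end Pool.Agent.Y838.UB
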