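import Pool.Agent.Y838.UB.C
import Pool.Agent.Y838.UB.F

/-!
A hierarchical tree: lower bounds for the amenability constants.
-/

set_option autoImplicit false
set_option linter.unusedSectionVars false

open Finset
open scoped ENNReal

namespace Pool.Agent.Y838.UB

open Pool.Agent.H164R3.Amen

/-- length of the edge between level `k` and level `k + 1` -/
noncomputable def len (θ : ℝ) (k : ℕ) : ℝ := if k = 0 then θ else θ ^ (k + 1) - θ ^ k

theorem len_pos {θ : ℝ} (hθ : 1 < θ) (k : ℕ) : 0 < len θ k := by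
  rw [len]; split_ifs
  · linarith
  · rw [sub_pos]; exact pow_lt_pow_right₀ hθ (by omega)

theorem sum_len (θ : ℝ) (m : ℕ) : ∑ k ∈ range (m + 1), len θ k = θ ^ (m + 1) := by
  induction m with
  | zero => simp [len]
  | succ m ih =>
    rw [sum_range_succ, ih, len, if_neg (by omega)]
    ring

/-- edges of the tree -/
abbrev Ed (n L : ℕ) : Type := Option (Fin L × Fin (n ^ L))

/-- lengths of the edges -/
noncomputable def le' {n L : ℕ} (θ : ℝ) : Ed n L → ℝ
  | none => θ ^ L
  | some e => len θ e.1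

theorem le'_pos {n L : ℕ} {θ : ℝ} (hθ : 1 < θ) (e : Ed n L) : 0 < le' θ e := by
  rcases e with _ | e
  · exact pow_pos (by linarith) _
  · exact len_pos hθ _

/-- the metric: points are sets of edges -/
noncomputable def dd {n L : ℕ} (θ : ℝ) (s t : Finset (Ed n L)) : ℝ := ∑ e ∈ symmDiff s t, le' θ e

theorem dd_symm {n L : ℕ} (θ : ℝ) (s t : Finset (Ed n L)) : dd θ s t = dd θ t s := by
  rw [dd, dd, symmDiff_comm]

theorem dd_nonneg {n L : ℕ} {θ : ℝ} (hθ : 1 < θ) (s t : Finset (Ed n L)) : 0 ≤ dd θ s t :=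
  sum_nonneg fun e _ => (le'_pos hθ e).le

theorem isRMetric_dd {n L : ℕ} {θ : ℝ} (hθ : 1 < θ) :
    IsRMetric 1 (dd θ : Finset (Ed n L) → Finset (Ed n L) → ℝ) := by
  refine ⟨dd_nonneg hθ, ?_, dd_symm θ, ?_⟩
  · intro s t
    constructor
    · intro h
      rw [dd, Finset.sum_eq_zero_iff_of_nonneg fun e _ => (le'_pos hθ e).le] at h
      have h1 : symmDiff s t = ∅ := by
        rw [Finset.eq_empty_iff_forall_notMem]
        intro e he
        exact (le'_pos hθ e).ne' (h e he)
      exact symmDiff_eq_bot.mp h1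
    · rintro rfl
      rw [dd, symmDiff_self]
      exact Finset.sum_empty
  · intro s t u
    rw [Real.rpow_one, Real.rpow_one, Real.rpow_one, dd, dd, dd]
    have h1 : symmDiff s u ⊆ symmDiff s t ∪ symmDiff t u := symmDiff_triangle _ _ _
    refine (sum_le_sum_of_subset_of_nonneg h1 fun e _ _ => (le'_pos hθ e).le).trans ?_
    rw [← Finset.sum_union_inter]
    have : 0 ≤ ∑ e ∈ symmDiff s t ∩ symmDiff t u, le' θ e :=
      sum_nonneg fun e _ => (le'_pos hθ e).le
    linarith

/-- ancestor of the leaf `x` at level `j` -/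
def anc {n L : ℕ} (j : Fin L) (x : Fin (n ^ L)) : Ed n L :=
  some (j, ⟨x.val / n ^ (j : ℕ), lt_of_le_of_lt (Nat.div_le_self _ _) x.2⟩)

/-- the vertex of level `k` above the leaf `x` -/
def vv {n L : ℕ} (k : ℕ) (x : Fin (n ^ L)) : Finset (Ed n L) :=
  (univ.filter fun j : Fin L => k ≤ j).image fun j => anc j x

theorem vv_L {n L : ℕ} (x : Fin (n ^ L)) : vv L x = (∅ : Finset (Ed n L)) := by
  rw [vv, Finset.image_eq_empty, Finset.filter_eq_empty_iff]
  intro j _
  have := j.2
  omega

theorem vv_congr {n L k : ℕ} {x y : Fin (n ^ L)} (h : x.val / n ^ k = y.val / n ^ k) {k' : ℕ}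
    (hk : k ≤ k') : (vv k' x : Finset (Ed n L)) = vv k' y := by
  rw [vv, vv]
  apply Finset.image_congr
  intro j hj
  simp only [coe_filter, mem_univ, true_and, Set.mem_ofPred_eq] at hj
  have h1 : x.val / n ^ (j : ℕ) = y.val / n ^ (j : ℕ) := by
    have e : n ^ (j : ℕ) = n ^ k * n ^ ((j : ℕ) - k) := by rw [← pow_add]; congr 1; omega
    rw [e, ← Nat.div_div_eq_div_mul, ← Nat.div_div_eq_div_mul, h]
  simp only [anc, h1]

theorem dd_vv {n L : ℕ} {θ : ℝ} (hθ : 1 < θ) {k : ℕ} (hk : k < L) (x : Fin (n ^ L)) :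
    dd θ (vv k x : Finset (Ed n L)) (vv (k + 1) x) ≤ len θ k := by
  have h1 : symmDiff (vv k x : Finset (Ed n L)) (vv (k + 1) x) ⊆ {anc ⟨k, hk⟩ x} := by
    intro e he
    rw [Finset.mem_symmDiff] at he
    rw [Finset.mem_singleton]
    simp only [vv, mem_image, mem_filter, mem_univ, true_and] at he
    rcases he with ⟨⟨j, hj, rfl⟩, h2⟩ | ⟨⟨j, hj, rfl⟩, h2⟩
    · have h3 : (j : ℕ) = k := by
        by_contra hne
        exact h2 ⟨j, by omega, rfl⟩
      have : j = ⟨k, hk⟩ := Fin.ext h3
      rw [this]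
    · exact absurd ⟨j, by omega, rfl⟩ h2
  rw [dd]
  refine (sum_le_sum_of_subset_of_nonneg h1 fun e _ _ => (le'_pos hθ e).le).trans ?_
  rw [sum_singleton]
  exact le_rfl

/-- the leaves and the base point -/
def emb {n L : ℕ} : Option (Fin (n ^ L)) → Finset (Ed n L)
  | none => {none}
  | some x => vv 0 x

theorem sum_filter_len {L : ℕ} (θ : ℝ) {j : ℕ} (hj : j < L) :
    ∑ i ∈ univ.filter (fun i : Fin L => (i : ℕ) ≤ j), len θ i = θ ^ (j + 1) := by
  rw [Finset.sum_filter]
  rw [Fin.sum_univ_eq_sum_range (fun i => if i ≤ j then len θ i else 0) L, ← Finset.sum_filter,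
    ← sum_len θ j]
  apply Finset.sum_congr _ fun _ _ => rfl
  ext i
  simp only [mem_filter, mem_range]
  omega

theorem anc_inj {n L : ℕ} (x : Fin (n ^ L)) :
    Function.Injective fun j : Fin L => (anc j x : Ed n L) := by
  intro i j h
  simp only [anc, Option.some.injEq, Prod.mk.injEq] at h
  exact h.1

/-- separated points are far apart -/
theorem dd_sep {n L : ℕ} {θ : ℝ} (hθ : 1 < θ) (u : Option (Fin (n ^ L))) (x : Fin (n ^ L))
    {j : ℕ} (hj : j < L) (h : cl n j u ≠ cl n j (some x)) :
    2 * θ ^ (j + 1) ≤ dd θ (emb u : Finset (Ed n L)) (emb (some x)) := by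
  classical
  set A := univ.filter (fun i : Fin L => (i : ℕ) ≤ j) with hA
  have hsumx : ∀ y : Fin (n ^ L), ∑ e ∈ A.image (fun i => (anc i y : Ed n L)), le' θ e
      = θ ^ (j + 1) := by
    intro y
    rw [Finset.sum_image (fun i _ i' _ h => anc_inj y h)]
    exact sum_filter_len θ hj
  rcases u with _ | y
  · have h1 : insert none (A.image fun i => (anc i x : Ed n L))
        ⊆ symmDiff (emb none : Finset (Ed n L)) (emb (some x)) := by
      intro e he
      rw [mem_insert, mem_image] at he
      rw [Finset.mem_symmDiff]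
      rcases he with rfl | ⟨i, _, rfl⟩
      · left
        simp [emb, vv, anc]
      · right
        simp [emb, vv, anc]
    have h2 : (none : Ed n L) ∉ A.image fun i => (anc i x : Ed n L) := by
      simp [anc]
    have h3 := sum_le_sum_of_subset_of_nonneg h1 fun e _ _ => (le'_pos hθ e).le
    rw [sum_insert h2, hsumx] at h3
    have h4 : θ ^ (j + 1) ≤ le' θ (none : Ed n L) := by
      show θ ^ (j + 1) ≤ θ ^ L
      exact pow_le_pow_right₀ hθ.le (by omega)
    rw [dd]
    linarith
  · have hne : ∀ i : Fin L, (i : ℕ) ≤ j → y.val / n ^ (i : ℕ) ≠ x.val / n ^ (i : ℕ) := by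
      intro i hi heq
      apply h
      have e : n ^ j = n ^ (i : ℕ) * n ^ (j - (i : ℕ)) := by rw [← pow_add]; congr 1; omega
      simp only [cl, Option.map_some, Option.some.injEq]
      rw [e, ← Nat.div_div_eq_div_mul, ← Nat.div_div_eq_div_mul, heq]
    have h1 : A.image (fun i => (anc i y : Ed n L)) ∪ A.image (fun i => (anc i x : Ed n L))
        ⊆ symmDiff (emb (some y) : Finset (Ed n L)) (emb (some x)) := by
      intro e he
      rw [mem_union, mem_image, mem_image] at he
      rw [Finset.mem_symmDiff]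
      rcases he with ⟨i, hi, rfl⟩ | ⟨i, hi, rfl⟩
      · left
        constructor
        · simp only [emb, vv, mem_image, mem_filter, mem_univ, true_and]
          exact ⟨i, Nat.zero_le _, rfl⟩
        · simp only [emb, vv, mem_image, mem_filter, mem_univ, true_and, not_exists, not_and]
          intro i' _ h2
          simp only [anc, Option.some.injEq, Prod.mk.injEq, Fin.mk.injEq] at h2
          rw [h2.1] at h2
          exact hne i (mem_filter.mp hi).2 h2.2.symm
      · right
        constructor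
        · simp only [emb, vv, mem_image, mem_filter, mem_univ, true_and]
          exact ⟨i, Nat.zero_le _, rfl⟩
        · simp only [emb, vv, mem_image, mem_filter, mem_univ, true_and, not_exists, not_and]
          intro i' _ h2
          simp only [anc, Option.some.injEq, Prod.mk.injEq, Fin.mk.injEq] at h2
          rw [h2.1] at h2
          exact hne i (mem_filter.mp hi).2 h2.2
    have h2 : Disjoint (A.image fun i => (anc i y : Ed n L)) (A.image fun i => (anc i x : Ed n L)) := by
      rw [Finset.disjoint_left]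
      intro e he he'
      rw [mem_image] at he he'
      obtain ⟨i, hi, rfl⟩ := he
      obtain ⟨i', _, h3⟩ := he'
      simp only [anc, Option.some.injEq, Prod.mk.injEq, Fin.mk.injEq] at h3
      rw [h3.1] at h3
      exact hne i (mem_filter.mp hi).2 h3.2.symm
    have h3 := sum_le_sum_of_subset_of_nonneg h1 fun e _ _ => (le'_pos hθ e).le
    rw [sum_union h2, hsumx, hsumx] at h3
    rw [dd]
    linarith

theorem emb_ne {n L : ℕ} (hL : 1 ≤ L) {θ : ℝ} (hθ : 1 < θ) (u v : Option (Fin (n ^ L)))
    (h : u ≠ v) : 2 * θ ≤ dd θ (emb u : Finset (Ed n L)) (emb v) := by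
  have key : ∀ (u : Option (Fin (n ^ L))) (x : Fin (n ^ L)), u ≠ some x →
      2 * θ ≤ dd θ (emb u : Finset (Ed n L)) (emb (some x)) := by
    intro u x hne
    have h1 : cl n 0 u ≠ cl n 0 (some x) := by
      rcases u with _ | y
      · simp [cl]
      · intro h2
        apply hne
        simp only [cl, Option.map_some, pow_zero, Nat.div_one, Option.some.injEq] at h2
        rw [Fin.ext h2]
    have := dd_sep hθ u x (show 0 < L by omega) h1
    simpa using this
  rcases v with _ | x
  · rcases u with _ | y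
    · exact absurd rfl h
    · rw [dd_symm]; exact key none y (Ne.symm h)
  · exact key u x h

theorem emb_inj {n L : ℕ} (hL : 1 ≤ L) : Function.Injective (emb (n := n) (L := L)) := by
  intro u v h
  by_contra hne
  have h1 := emb_ne hL (show (1 : ℝ) < 2 by norm_num) u v hne
  rw [h, dd, symmDiff_self] at h1
  have : ∑ e ∈ (⊥ : Finset (Ed n L)), le' (2 : ℝ) e = 0 := Finset.sum_empty
  rw [this] at h1
  norm_num at h1

/-- the upper bound for the norm of the sum of the leaves over the tree -/
noncomputable def UU (n L : ℕ) (θ p : ℝ) : ℝ :=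
  ∑ k ∈ range L, (n : ℝ) ^ (L - k) * (((n : ℝ) ^ k) ^ p * len θ k ^ p)
    + ((n : ℝ) ^ L) ^ p * (θ ^ L) ^ p

theorem upper {n L : ℕ} (hn : 0 < n) {θ p : ℝ} (hθ : 1 < θ) (hp : 0 < p) {Y : Type}
    [AddCommGroup Y] [Module ℝ Y] {N : Y → ℝ} (h : IsPBanach p N) (f : Finset (Ed n L) → Y)
    (h0 : f {none} = 0) (hf : ∀ s t, N (f s - f t) ≤ dd θ s t) :
    N (∑ x : Fin (n ^ L), f (vv 0 x)) ^ p ≤ UU n L θ p := by
  classical
  have hnR : (0 : ℝ) ≤ n := Nat.cast_nonneg n
  have e : ∑ x : Fin (n ^ L), f (vv 0 x)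
      = ∑ k ∈ range L, ∑ x : Fin (n ^ L), (f (vv k x) - f (vv (k + 1) x))
        + ((n : ℝ) ^ L) • (f ∅ - f {none}) := by
    rw [sum_comm]
    have e1 : ∀ x : Fin (n ^ L), ∑ k ∈ range L, (f (vv k x) - f (vv (k + 1) x))
        = f (vv 0 x) - f ∅ := by
      intro x
      rw [Finset.sum_range_sub' (fun k => f (vv k x)), vv_L]
    rw [sum_congr rfl fun x _ => e1 x, sum_sub_distrib, h0, sub_zero, sum_const, card_univ,
      Fintype.card_fin, ← Nat.cast_smul_eq_nsmul ℝ, Nat.cast_pow]
    abel
  rw [e]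
  refine (h.add _ _).trans (add_le_add ?_ ?_)
  · refine (norm_sum_le hp h _ _).trans (sum_le_sum fun k hk => ?_)
    rw [mem_range] at hk
    have hb : 0 < n ^ k := pow_pos hn k
    have hN : n ^ (L - k) * n ^ k = n ^ L := by rw [← pow_add]; congr 1; omega
    have hmaps : ∀ x ∈ (univ : Finset (Fin (n ^ L))), x.val / n ^ k ∈ range (n ^ (L - k)) := by
      intro x _
      rw [mem_range, Nat.div_lt_iff_lt_mul hb, hN]
      exact x.2
    rw [← Finset.sum_fiberwise_of_maps_to hmaps]
    refine (norm_sum_le hp h _ _).trans ?_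
    have hz : ∀ z ∈ range (n ^ (L - k)),
        N (∑ x ∈ (univ : Finset (Fin (n ^ L))).filter (fun x => x.val / n ^ k = z),
          (f (vv k x) - f (vv (k + 1) x))) ^ p ≤ ((n : ℝ) ^ k) ^ p * len θ k ^ p := by
      intro z hz
      rw [mem_range] at hz
      have hcard := card_cluster (N := n ^ L) (z := z) hb (by
        rw [← hN]; exact Nat.mul_le_mul_right _ (by omega))
      obtain ⟨x0, hx0⟩ : ((univ : Finset (Fin (n ^ L))).filter
          (fun x => x.val / n ^ k = z)).Nonempty := by
        rw [← Finset.card_pos, hcard]; exact hb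
      have e2 : ∑ x ∈ (univ : Finset (Fin (n ^ L))).filter (fun x => x.val / n ^ k = z),
          (f (vv k x) - f (vv (k + 1) x)) = ((n : ℝ) ^ k) • (f (vv k x0) - f (vv (k + 1) x0)) := by
        rw [sum_congr rfl (g := fun _ => f (vv k x0) - f (vv (k + 1) x0)), sum_const, hcard,
          ← Nat.cast_smul_eq_nsmul ℝ, Nat.cast_pow]
        intro x hx
        have h1 : x.val / n ^ k = x0.val / n ^ k := by
          rw [(mem_filter.mp hx).2, (mem_filter.mp hx0).2]
        rw [vv_congr h1 le_rfl, vv_congr h1 (Nat.le_succ k)]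
      rw [e2, h.smul, Real.mul_rpow (abs_nonneg _) (h.nonneg _), abs_of_nonneg (by positivity)]
      exact mul_le_mul_of_nonneg_left
        (Real.rpow_le_rpow (h.nonneg _) ((hf _ _).trans (dd_vv hθ hk x0)) hp.le)
        (Real.rpow_nonneg (by positivity) _)
    refine (sum_le_sum hz).trans ?_
    rw [sum_const, card_range, nsmul_eq_mul, Nat.cast_pow]
  · rw [h.smul, Real.mul_rpow (abs_nonneg _) (h.nonneg _), abs_of_nonneg (by positivity)]
    refine mul_le_mul_of_nonneg_left (Real.rpow_le_rpow (h.nonneg _) ((hf _ _).trans ?_) hp.le)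
      (Real.rpow_nonneg (by positivity) _)
    rw [dd]
    have h1 : symmDiff (∅ : Finset (Ed n L)) {none} = {none} := by
      ext e; simp [Finset.mem_symmDiff]
    rw [h1, sum_singleton]
    exact le_rfl

end Pool.Agent.Y838.UB
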