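import Pool.Agent.Y838.UB.G

/-!
Lower bound for the amenability constants of the hierarchical tree.
-/

set_option autoImplicit false
set_option linter.unusedSectionVars false

open Finset
open scoped ENNReal

namespace Pool.Agent.Y838.UB

open Pool.Agent.H164R3.Amen

/-- weights on the leaves and the base point -/
noncomputable def ww {n L : ℕ} (θ p : ℝ) (u v : Option (Fin (n ^ L))) : ℝ :=
  dd θ (emb u : Finset (Ed n L)) (emb v) ^ p

/-- the Lipschitz map to the flow space -/
noncomputable def ff {n L : ℕ} (s : Finset (Ed n L)) : Fin (n ^ L) → ℝ :=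
  fun x => if s = emb (some x) then 1 else 0

theorem ff_emb_some {n L : ℕ} (hL : 1 ≤ L) (x : Fin (n ^ L)) :
    ff (emb (some x) : Finset (Ed n L)) = Pi.single x 1 := by
  funext y
  rw [ff, Pi.single_apply]
  by_cases h : y = x
  · rw [if_pos h, if_pos (by rw [h])]
  · rw [if_neg h, if_neg]
    intro h2
    have := emb_inj hL h2
    rw [Option.some.injEq] at this
    exact h this.symm

theorem ff_emb_none {n L : ℕ} (hL : 1 ≤ L) :
    ff (emb none : Finset (Ed n L)) = 0 := by
  funext y
  rw [ff, if_neg]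
  · rfl
  · intro h2
    have := emb_inj hL h2
    simp at this

/-- a flow along one edge -/
def edge {X : Type} [DecidableEq X] (u v : Option X) : Option X → Option X → ℝ :=
  fun a b => if a = u ∧ b = v then 1 else 0

theorem dv_edge {n L : ℕ} (hL : 1 ≤ L) (u v : Option (Fin (n ^ L))) :
    dv (edge u v) = ff (emb v : Finset (Ed n L)) - ff (emb u) := by
  funext x
  simp only [dv, edge, sum_sub_distrib, Pi.sub_apply]
  have key : ∀ v : Option (Fin (n ^ L)), ff (emb v : Finset (Ed n L)) x
      = if some x = v then 1 else 0 := by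
    intro v
    rcases v with _ | y
    · rw [ff_emb_none hL]; simp
    · rw [ff_emb_some hL, Pi.single_apply]
      simp
  rw [key, key]
  congr 1
  · by_cases h : some x = v
    · subst h; simp
    · simp [h]
  · by_cases h : some x = u
    · subst h; simp
    · simp [h]

theorem cost_edge {X : Type} [Fintype X] [DecidableEq X] {p : ℝ} (hp : 0 < p)
    (w : Option X → Option X → ℝ) (u v : Option X) : cost p w (edge u v) = w u v := by
  rw [cost, Finset.sum_eq_single u, Finset.sum_eq_single v]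
  · simp [edge]
  · intro b _ hb; simp [edge, hb, Real.zero_rpow hp.ne']
  · simp
  · intro b _ hb
    apply Finset.sum_eq_zero
    intro c _
    simp [edge, hb, Real.zero_rpow hp.ne']
  · simp

theorem lip {n L : ℕ} (hL : 1 ≤ L) {θ p : ℝ} (hθ : 1 < θ) (hp : 0 < p)
    (u v : Option (Fin (n ^ L))) :
    NY p (ww (L := L) θ p) (ff (emb u : Finset (Ed n L)) - ff (emb v)) ≤ dd θ (emb u : Finset (Ed n L)) (emb v) := by
  have hw0 : ∀ u v : Option (Fin (n ^ L)), 0 ≤ ww θ p u v := fun u v =>
    Real.rpow_nonneg (dd_nonneg hθ _ _) _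
  rw [NY_le_iff hp hw0 _ (dd_nonneg hθ _ _)]
  have h1 := Ψ_le (p := p) hw0 (dv_edge hL v u)
  rw [cost_edge hp] at h1
  refine h1.trans (le_of_eq ?_)
  rw [ww, dd_symm]

/-- the subset: leaves and base point -/
def SS (n L : ℕ) : Set (Finset (Ed n L)) := Set.range emb

/-- the element `∑ δ(leaf)` -/
noncomputable def μμ (n L : ℕ) : SS n L →₀ ℝ :=
  ∑ x : Fin (n ^ L), Finsupp.single (⟨emb (some x), ⟨some x, rfl⟩⟩ : SS n L) 1

theorem UU_pos {n L : ℕ} (hn : 0 < n) {θ p : ℝ} (hθ : 1 < θ) : 0 < UU n L θ p := by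
  have hn' : (0 : ℝ) < n := by exact_mod_cast hn
  have h1 : 0 ≤ ∑ k ∈ range L, (n : ℝ) ^ (L - k) * (((n : ℝ) ^ k) ^ p * len θ k ^ p) :=
    sum_nonneg fun k _ => mul_nonneg (by positivity)
      (mul_nonneg (Real.rpow_nonneg (by positivity) _) (Real.rpow_nonneg (len_pos hθ k).le _))
  have h2 : 0 < ((n : ℝ) ^ L) ^ p * (θ ^ L) ^ p :=
    mul_pos (Real.rpow_pos_of_pos (by positivity) _)
      (Real.rpow_pos_of_pos (pow_pos (by linarith) _) _)
  rw [UU]; linarith

theorem A_lower {n L : ℕ} (hn : 2 ≤ n) (hL : 1 ≤ L) {θ p : ℝ} (hθ : 1 < θ) (hp : 0 < p)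
    (hp1 : p < 1) (hnp : (n : ℝ) ^ (1 - p) ≤ θ) {lam : ℝ} (hlam0 : 0 < lam)
    (hlam : lam * θ * n ≤ 2 * (Real.exp 1 * Real.log θ) * (n - 1)) :
    ENNReal.ofReal (((2 * θ ^ L) ^ (p - 1) * lam * L * (n : ℝ) ^ L / UU n L θ p) ^ (1 / p))
      ≤ ⨆ m : ℕ, A p 1 m := by
  classical
  have hn0 : 0 < n := by omega
  have hnR : (0 : ℝ) < n := by exact_mod_cast hn0
  have hθ0 : 0 < θ := by linarith
  set κ : ℝ := (2 * θ ^ L) ^ (p - 1) with hκ
  have hκ0 : 0 < κ := Real.rpow_pos_of_pos (by positivity) _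
  set Lw : ℝ := κ * lam * L * (n : ℝ) ^ L with hLw
  set U : ℝ := UU n L θ p with hU
  have hU0 : 0 < U := UU_pos hn0 hθ
  have hLR : (0 : ℝ) < L := by exact_mod_cast hL
  have hLw0 : 0 < Lw := by positivity
  have hw0 : ∀ u v : Option (Fin (n ^ L)), 0 ≤ ww θ p u v := fun u v =>
    Real.rpow_nonneg (dd_nonneg hθ _ _) _
  have hw1 : ∀ u v : Option (Fin (n ^ L)), u ≠ v → 1 ≤ ww θ p u v := by
    intro u v h
    refine Real.one_le_rpow ?_ hp.le
    have := emb_ne hL hθ u v h
    linarith
  have ho : (emb none : Finset (Ed n L)) ∈ SS n L := ⟨none, rfl⟩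
  -- lower bound on the free norm over the subset
  have hlow : ENNReal.ofReal (Lw ^ (1 / p))
      ≤ freeNorm p (fun x y : SS n L => dd θ (x : Finset (Ed n L)) y) ⟨emb none, ho⟩ (μμ n L) := by
    have hN : IsPBanach p (NY p (ww (n := n) (L := L) θ p)) := isPBanach_NY hp hp1.le hw0 hw1
    have hsum : ((μμ n L).sum fun x a => a • ff (x : Finset (Ed n L))) = fun _ => (1 : ℝ) := by
      rw [μμ, ← Finsupp.sum_finsetSum_index]
      · have : ∀ x : Fin (n ^ L),
            ((Finsupp.single (⟨emb (some x), ⟨some x, rfl⟩⟩ : SS n L) (1 : ℝ)).sum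
              fun x a => a • ff (x : Finset (Ed n L))) = Pi.single x 1 := by
          intro x
          rw [Finsupp.sum_single_index]
          · rw [one_smul, ff_emb_some hL]
          · simp
        simp only [this]
        funext y
        rw [Finset.sum_apply]
        simp [Pi.single_apply]
      · intro a; simp
      · intro a b1 b2; rw [add_smul]
    have hval : Lw ≤ NY p (ww (n := n) (L := L) θ p) (fun _ => (1 : ℝ)) ^ p := by
      rw [NY_rpow hp hw0]
      refine le_Ψ fun F hF => ?_
      refine flow_lower hn L hθ hp hp1 hnp hlam0.le hκ0.le hlam hw0 ?_ ?_ F (fun x => by rw [hF])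
      · intro u v
        rw [ww, ww, dd_symm]
      · intro u x j hj hsep
        have h1 := dd_sep hθ u x hj hsep
        have h2 : 0 < 2 * θ ^ (j + 1) := by positivity
        have h3 : (2 * θ ^ (j + 1)) ^ p ≤ ww θ p u (some x) :=
          Real.rpow_le_rpow h2.le h1 hp.le
        refine le_trans ?_ h3
        have h4 : (2 * θ ^ (j + 1)) ^ p = (2 * θ ^ (j + 1)) ^ (p - 1) * (2 * θ ^ (j + 1)) := by
          rw [Real.rpow_sub_one h2.ne']
          field_simp
        rw [h4]
        refine mul_le_mul_of_nonneg_right ?_ h2.le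
        refine Real.rpow_le_rpow_of_nonpos h2 ?_ (by linarith)
        have : θ ^ (j + 1) ≤ θ ^ L := pow_le_pow_right₀ hθ.le (by omega)
        linarith
    have hval' : Lw ^ (1 / p) ≤ NY p (ww (n := n) (L := L) θ p) (fun _ => (1 : ℝ)) := by
      have h1 := Real.rpow_le_rpow hLw0.le hval (show 0 ≤ 1 / p by positivity)
      rwa [← Real.rpow_mul (hN.nonneg _), mul_one_div_cancel hp.ne', Real.rpow_one] at h1
    refine (ENNReal.ofReal_le_ofReal hval').trans ?_
    rw [freeNorm]
    refine le_iSup_of_le (Fin (n ^ L) → ℝ) (le_iSup_of_le inferInstance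
      (le_iSup_of_le inferInstance (le_iSup_of_le (NY p (ww (L := L) θ p)) (le_iSup_of_le hN
      (le_iSup_of_le (fun x : SS n L => ff (x : Finset (Ed n L)))
        (le_iSup_of_le ?_ (le_iSup_of_le ?_ ?_)))))))
    · exact ff_emb_none hL
    · rintro ⟨x, u, rfl⟩ ⟨y, v, rfl⟩
      exact lip hL hθ hp u v
    · rw [hsum]
  -- upper bound on the free norm over the whole space
  have hup : freeNorm p (dd θ) (emb none : Finset (Ed n L)) ((μμ n L).mapDomain Subtype.val)
      ≤ ENNReal.ofReal (U ^ (1 / p)) := by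
    rw [freeNorm]
    refine iSup_le fun Y => iSup_le fun i1 => iSup_le fun i2 => iSup_le fun N => iSup_le fun hN =>
      iSup_le fun f => iSup_le fun h0 => iSup_le fun hf => ?_
    apply ENNReal.ofReal_le_ofReal
    have e : (((μμ n L).mapDomain Subtype.val).sum fun x a => a • f x)
        = ∑ x : Fin (n ^ L), f (vv 0 x) := by
      rw [Finsupp.sum_mapDomain_index (by simp) (by intro a b1 b2; rw [add_smul]), μμ,
        ← Finsupp.sum_finsetSum_index]
      · refine sum_congr rfl fun x _ => ?_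
        rw [Finsupp.sum_single_index (by simp), one_smul]
        rfl
      · intro a; simp
      · intro a b1 b2; rw [add_smul]
    rw [e]
    have h1 := upper hn0 hθ hp hN f h0 hf
    have h2 := Real.rpow_le_rpow (Real.rpow_nonneg (hN.nonneg _) _) h1 (show 0 ≤ 1 / p by positivity)
    rwa [← Real.rpow_mul (hN.nonneg _), mul_one_div_cancel hp.ne', Real.rpow_one] at h2
  -- the ratio
  rw [Real.div_rpow hLw0.le hU0.le, ENNReal.ofReal_div_of_pos (Real.rpow_pos_of_pos hU0 _)]
  have hcard : ∃ k : ℕ, (SS n L).ncard = k + 1 := by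
    have : 0 < (SS n L).ncard := (Set.ncard_pos (Set.toFinite _)).mpr ⟨_, ho⟩
    exact ⟨(SS n L).ncard - 1, by omega⟩
  obtain ⟨k, hk⟩ := hcard
  refine le_iSup_of_le k ?_
  rw [A]
  refine le_iSup_of_le (Finset (Ed n L)) (le_iSup_of_le inferInstance (le_iSup_of_le (dd θ)
    (le_iSup_of_le (isRMetric_dd hθ) (le_iSup_of_le (emb none) (le_iSup_of_le (SS n L)
    (le_iSup_of_le ho (le_iSup_of_le hk ?_)))))))
  rw [am]
  refine le_iSup_of_le (μμ n L) (le_iSup_of_le ?_ ?_)
  · have hpos : 0 < n ^ L := pow_pos hn0 L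
    set x0 : Fin (n ^ L) := ⟨0, hpos⟩ with hx0
    refine ⟨⟨emb (some x0), ⟨some x0, rfl⟩⟩, ?_, ?_⟩
    · intro h
      have h' : (emb (some x0) : Finset (Ed n L)) = emb none := h
      have := emb_inj hL h'
      simp at this
    · rw [μμ, Finsupp.finsetSum_apply, Finset.sum_eq_single x0]
      · simp
      · intro b _ hb
        rw [Finsupp.single_apply, if_neg]
        intro e
        have e' : (emb (some b) : Finset (Ed n L)) = emb (some x0) := congrArg Subtype.val e
        have := emb_inj hL e'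
        rw [Option.some.injEq] at this
        exact hb this
      · simp
  · exact ENNReal.div_le_div hlow hup

end Pool.Agent.Y838.UB
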