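import Pool.Agent.Y838.UB.H
import Pool.Agent.Y838.UB.D

/-!
The limit of the lower bounds as `p → 1`.
-/

set_option autoImplicit false
set_option linter.unusedSectionVars false

open Finset Filter Topology
open scoped ENNReal

namespace Pool.Agent.Y838.UB

open Pool.Agent.H164R3.Amen

/-- the branching number -/
noncomputable def nn' (θ p : ℝ) : ℕ := ⌊θ ^ (1 / (1 - p))⌋₊

theorem nn'_rpow_le {θ p : ℝ} (hθ : 1 < θ) (hp1 : p < 1) : (nn' θ p : ℝ) ^ (1 - p) ≤ θ := by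
  have h0 : 0 < 1 - p := by linarith
  have h1 : (nn' θ p : ℝ) ≤ θ ^ (1 / (1 - p)) := Nat.floor_le (Real.rpow_nonneg (by linarith) _)
  calc (nn' θ p : ℝ) ^ (1 - p) ≤ (θ ^ (1 / (1 - p))) ^ (1 - p) :=
        Real.rpow_le_rpow (Nat.cast_nonneg _) h1 h0.le
    _ = θ := by
        rw [← Real.rpow_mul (by linarith), one_div_mul_cancel h0.ne', Real.rpow_one]

theorem le_nn'_rpow {θ p : ℝ} (hθ : 1 < θ) (hp1 : p < 1) (hn : 1 ≤ nn' θ p) :
    θ ≤ (2 : ℝ) ^ (1 - p) * (nn' θ p : ℝ) ^ (1 - p) := by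
  have h0 : 0 < 1 - p := by linarith
  have h1 : θ ^ (1 / (1 - p)) ≤ 2 * (nn' θ p : ℝ) := by
    have h2 : θ ^ (1 / (1 - p)) < (nn' θ p : ℝ) + 1 := Nat.lt_floor_add_one _
    have h3 : (1 : ℝ) ≤ nn' θ p := by exact_mod_cast hn
    linarith
  calc θ = (θ ^ (1 / (1 - p))) ^ (1 - p) := by
        rw [← Real.rpow_mul (by linarith), one_div_mul_cancel h0.ne', Real.rpow_one]
    _ ≤ (2 * (nn' θ p : ℝ)) ^ (1 - p) :=
        Real.rpow_le_rpow (Real.rpow_nonneg (by linarith) _) h1 h0.le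
    _ = _ := Real.mul_rpow (by norm_num) (Nat.cast_nonneg _)

theorem tendsto_nn' {θ : ℝ} (hθ : 1 < θ) : Tendsto (fun p : ℝ => nn' θ p) (𝓝[<] 1) atTop := by
  have h1 : Tendsto (fun p : ℝ => 1 - p) (𝓝[<] 1) (𝓝[>] 0) := by
    rw [tendsto_nhdsWithin_iff]
    constructor
    · have : Tendsto (fun p : ℝ => 1 - p) (𝓝 1) (𝓝 (1 - 1)) := tendsto_const_nhds.sub tendsto_id
      rw [sub_self] at this
      exact this.mono_left nhdsWithin_le_nhds
    · filter_upwards [self_mem_nhdsWithin] with p hp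
      rw [Set.mem_Iio] at hp
      rw [Set.mem_Ioi]; linarith
  have h2 : Tendsto (fun p : ℝ => 1 / (1 - p)) (𝓝[<] 1) atTop := by
    simp only [one_div]
    exact tendsto_inv_nhdsGT_zero.comp h1
  have h3 : Tendsto (fun p : ℝ => θ ^ (1 / (1 - p))) (𝓝[<] 1) atTop := by
    have h4 : Tendsto (fun p : ℝ => Real.exp (Real.log θ * (1 / (1 - p)))) (𝓝[<] 1) atTop :=
      Real.tendsto_exp_atTop.comp (h2.const_mul_atTop (Real.log_pos hθ))
    refine h4.congr fun p => ?_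
    rw [Real.rpow_def_of_pos (by linarith)]
  exact tendsto_nat_floor_atTop.comp h3

theorem len_rpow_le {θ p : ℝ} (hθ : 1 < θ) (hp1 : p < 1) {k : ℕ} (hk : k ≠ 0) :
    len θ k ^ p ≤ θ ^ k * (θ - 1) ^ p := by
  have h1 : len θ k = θ ^ k * (θ - 1) := by rw [len, if_neg hk]; ring
  rw [h1, Real.mul_rpow (by positivity) (by linarith)]
  refine mul_le_mul_of_nonneg_right ?_ (Real.rpow_nonneg (by linarith) _)
  calc (θ ^ k) ^ p ≤ (θ ^ k) ^ (1 : ℝ) :=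
        Real.rpow_le_rpow_of_exponent_le (one_le_pow₀ hθ.le) hp1.le
    _ = θ ^ k := Real.rpow_one _

theorem UU_le {θ p : ℝ} (hθ : 1 < θ) (hp : 0 < p) (hp1 : p < 1) {L : ℕ} (hL : 1 ≤ L) {n : ℕ}
    (hn : 1 ≤ n) {s : ℝ} (hs : 1 ≤ s) (hns : θ ≤ s * (n : ℝ) ^ (1 - p)) :
    UU n L θ p ≤ (n : ℝ) ^ L * (s ^ L * (θ + 1 + (L - 1) * (θ - 1) ^ p)) := by
  have hn0 : (0 : ℝ) < n := by exact_mod_cast hn
  have hθ0 : 0 < θ := by linarith
  -- discount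
  have hdisc : ∀ k ≤ L, ((n : ℝ) ^ k) ^ p ≤ (n : ℝ) ^ k * (s ^ L * (θ ^ k)⁻¹) := by
    intro k hk
    have h1 : 0 < (n : ℝ) ^ k := by positivity
    have h2 : (n : ℝ) ^ k = ((n : ℝ) ^ k) ^ p * ((n : ℝ) ^ k) ^ (1 - p) := by
      rw [← Real.rpow_add h1, show p + (1 - p) = 1 by ring, Real.rpow_one]
    have h3 : θ ^ k ≤ s ^ L * ((n : ℝ) ^ k) ^ (1 - p) := by
      have e : ((n : ℝ) ^ k) ^ (1 - p) = ((n : ℝ) ^ (1 - p)) ^ k := by
        rw [← Real.rpow_natCast, ← Real.rpow_natCast, ← Real.rpow_mul hn0.le,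
          ← Real.rpow_mul hn0.le, mul_comm]
      rw [e]
      calc θ ^ k ≤ (s * (n : ℝ) ^ (1 - p)) ^ k := pow_le_pow_left₀ hθ0.le hns k
        _ = s ^ k * ((n : ℝ) ^ (1 - p)) ^ k := mul_pow _ _ _
        _ ≤ _ := mul_le_mul_of_nonneg_right (pow_le_pow_right₀ hs hk)
            (pow_nonneg (Real.rpow_nonneg hn0.le _) _)
    have h4 : (n : ℝ) ^ k * (s ^ L * (θ ^ k)⁻¹)
        = ((n : ℝ) ^ k) ^ p * ((s ^ L * ((n : ℝ) ^ k) ^ (1 - p)) * (θ ^ k)⁻¹) := by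
      nth_rewrite 1 [h2]; ring
    rw [h4]
    refine le_mul_of_one_le_right (Real.rpow_nonneg h1.le _) ?_
    rw [← div_eq_mul_inv, one_le_div (by positivity)]
    exact h3
  have hterm : ∀ k ∈ range L, (n : ℝ) ^ (L - k) * (((n : ℝ) ^ k) ^ p * len θ k ^ p)
      ≤ (n : ℝ) ^ L * (s ^ L * (if k = 0 then θ else (θ - 1) ^ p)) := by
    intro k hk
    rw [mem_range] at hk
    have h1 := hdisc k hk.le
    have h2 : (n : ℝ) ^ L = (n : ℝ) ^ (L - k) * (n : ℝ) ^ k := by rw [← pow_add]; congr 1; omega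
    have h3 : len θ k ^ p ≤ θ ^ k * (if k = 0 then θ else (θ - 1) ^ p) := by
      split_ifs with h
      · subst h
        rw [pow_zero, one_mul, len, if_pos rfl]
        calc θ ^ p ≤ θ ^ (1 : ℝ) := Real.rpow_le_rpow_of_exponent_le hθ.le hp1.le
          _ = θ := Real.rpow_one _
      · exact len_rpow_le hθ hp1 h
    have h4 : 0 ≤ len θ k ^ p := Real.rpow_nonneg (len_pos hθ k).le _
    calc (n : ℝ) ^ (L - k) * (((n : ℝ) ^ k) ^ p * len θ k ^ p)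
        ≤ (n : ℝ) ^ (L - k) * (((n : ℝ) ^ k * (s ^ L * (θ ^ k)⁻¹)) *
          (θ ^ k * (if k = 0 then θ else (θ - 1) ^ p))) := by
          refine mul_le_mul_of_nonneg_left (mul_le_mul h1 h3 h4 (by positivity)) (by positivity)
      _ = _ := by rw [h2]; field_simp
  have hlast : ((n : ℝ) ^ L) ^ p * (θ ^ L) ^ p ≤ (n : ℝ) ^ L * s ^ L := by
    have h1 := hdisc L le_rfl
    have h2 : (θ ^ L) ^ p ≤ θ ^ L := by
      calc (θ ^ L) ^ p ≤ (θ ^ L) ^ (1 : ℝ) :=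
            Real.rpow_le_rpow_of_exponent_le (one_le_pow₀ hθ.le) hp1.le
        _ = θ ^ L := Real.rpow_one _
    calc ((n : ℝ) ^ L) ^ p * (θ ^ L) ^ p
        ≤ ((n : ℝ) ^ L * (s ^ L * (θ ^ L)⁻¹)) * θ ^ L :=
          mul_le_mul h1 h2 (Real.rpow_nonneg (by positivity) _) (by positivity)
      _ = _ := by field_simp
  have hsum : ∑ k ∈ range L, (if k = 0 then θ else (θ - 1) ^ p) = θ + (L - 1) * (θ - 1) ^ p := by
    obtain ⟨L', rfl⟩ := Nat.exists_eq_add_of_le hL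
    rw [add_comm 1 L', Finset.sum_range_succ']
    simp only [Nat.add_eq_zero_iff, one_ne_zero, and_false, if_false, if_true, sum_const,
      card_range, nsmul_eq_mul]
    push_cast
    ring
  rw [UU]
  refine (add_le_add (sum_le_sum hterm) hlast).trans (le_of_eq ?_)
  rw [← mul_sum, ← mul_sum, hsum]
  ring

/-- lower bound in closed form -/
theorem A_lower' {θ p : ℝ} (hθ : 1 < θ) (hp : 0 < p) (hp1 : p < 1) {L : ℕ} (hL : 1 ≤ L)
    (hn : 2 ≤ nn' θ p) :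
    ENNReal.ofReal (((2 * θ ^ L) ^ (p - 1) *
      (2 * (Real.exp 1 * Real.log θ) / θ * (1 - 1 / (nn' θ p : ℝ))) * L /
      (((2 : ℝ) ^ (1 - p)) ^ L * (θ + 1 + (L - 1) * (θ - 1) ^ p))) ^ (1 / p))
      ≤ ⨆ m : ℕ, A p 1 m := by
  set n := nn' θ p with hndef
  have hn2 : (2 : ℝ) ≤ n := by exact_mod_cast hn
  have hn0 : (0 : ℝ) < n := by linarith
  have hθ0 : 0 < θ := by linarith
  have hlog : 0 < Real.log θ := Real.log_pos hθ
  set lam : ℝ := 2 * (Real.exp 1 * Real.log θ) / θ * (1 - 1 / (n : ℝ)) with hlamdef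
  have h1n : 0 < 1 - 1 / (n : ℝ) := by
    rw [sub_pos, div_lt_one hn0]; linarith
  have hlam0 : 0 < lam := by positivity
  have hlam : lam * θ * n ≤ 2 * (Real.exp 1 * Real.log θ) * (n - 1) := by
    rw [hlamdef]
    apply le_of_eq
    field_simp
  have h := A_lower hn hL hθ hp hp1 (nn'_rpow_le hθ hp1) hlam0 hlam
  refine le_trans (ENNReal.ofReal_le_ofReal ?_) h
  have hs : (1 : ℝ) ≤ (2 : ℝ) ^ (1 - p) := Real.one_le_rpow (by norm_num) (by linarith)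
  have hU := UU_le hθ hp hp1 hL (by omega : 1 ≤ n) hs (le_nn'_rpow hθ hp1 (by omega))
  have hU0 : 0 < UU n L θ p := UU_pos (by omega) hθ
  have hLR : (1 : ℝ) ≤ L := by exact_mod_cast hL
  have hV : 0 < ((2 : ℝ) ^ (1 - p)) ^ L * (θ + 1 + (L - 1) * (θ - 1) ^ p) := by
    have : 0 ≤ (θ - 1) ^ p := Real.rpow_nonneg (by linarith) _
    have : 0 ≤ ((L : ℝ) - 1) * (θ - 1) ^ p := mul_nonneg (by linarith) this
    positivity
  have hκ : 0 < (2 * θ ^ L) ^ (p - 1) := Real.rpow_pos_of_pos (by positivity) _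
  have hnum : 0 ≤ (2 * θ ^ L) ^ (p - 1) * lam * L := by positivity
  refine Real.rpow_le_rpow (div_nonneg hnum hV.le) ?_ (by positivity)
  rw [div_le_div_iff₀ hV hU0]
  calc (2 * θ ^ L) ^ (p - 1) * lam * L * UU n L θ p
      ≤ (2 * θ ^ L) ^ (p - 1) * lam * L *
        ((n : ℝ) ^ L * (((2 : ℝ) ^ (1 - p)) ^ L * (θ + 1 + (L - 1) * (θ - 1) ^ p))) :=
        mul_le_mul_of_nonneg_left hU hnum
    _ = _ := by ring

/-- the limit of the lower bounds for fixed `θ` and `L` -/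
theorem tendsto_lower {θ : ℝ} (hθ : 1 < θ) {L : ℕ} (hL : 1 ≤ L) :
    Tendsto (fun p : ℝ => ((2 * θ ^ L) ^ (p - 1) *
      (2 * (Real.exp 1 * Real.log θ) / θ * (1 - 1 / (nn' θ p : ℝ))) * L /
      (((2 : ℝ) ^ (1 - p)) ^ L * (θ + 1 + (L - 1) * (θ - 1) ^ p))) ^ (1 / p)) (𝓝[<] 1)
      (𝓝 (2 * (Real.exp 1 * Real.log θ) / θ * L / (θ + 1 + (L - 1) * (θ - 1)))) := by
  have hid : Tendsto (fun p : ℝ => p) (𝓝[<] 1) (𝓝 1) := tendsto_id.mono_left nhdsWithin_le_nhds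
  have hLR : (1 : ℝ) ≤ L := by exact_mod_cast hL
  have h1 : Tendsto (fun p : ℝ => (2 * θ ^ L) ^ (p - 1)) (𝓝[<] 1) (𝓝 1) := by
    have := (tendsto_const_nhds (x := 2 * θ ^ L)).rpow (hid.sub_const 1)
      (Or.inl (by positivity : (2 * θ ^ L : ℝ) ≠ 0))
    simpa using this
  have h2 : Tendsto (fun p : ℝ => 1 - 1 / (nn' θ p : ℝ)) (𝓝[<] 1) (𝓝 1) := by
    have h3 : Tendsto (fun p : ℝ => (1 : ℝ) / (nn' θ p : ℝ)) (𝓝[<] 1) (𝓝 0) :=
      tendsto_const_nhds.div_atTop (tendsto_natCast_atTop_atTop.comp (tendsto_nn' hθ))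
    simpa using tendsto_const_nhds.sub h3
  have h3 : Tendsto (fun p : ℝ => ((2 : ℝ) ^ (1 - p)) ^ L) (𝓝[<] 1) (𝓝 1) := by
    have := ((tendsto_const_nhds (x := (2 : ℝ))).rpow ((tendsto_const_nhds (x := (1 : ℝ))).sub hid)
      (Or.inl (by norm_num : (2 : ℝ) ≠ 0))).pow L
    simpa using this
  have h4 : Tendsto (fun p : ℝ => (θ - 1) ^ p) (𝓝[<] 1) (𝓝 (θ - 1)) := by
    have := (tendsto_const_nhds (x := θ - 1)).rpow hid (Or.inl (by linarith : θ - 1 ≠ 0))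
    rwa [Real.rpow_one] at this
  have hV0 : (θ + 1 + ((L : ℝ) - 1) * (θ - 1)) ≠ 0 := by
    have : 0 ≤ ((L : ℝ) - 1) * (θ - 1) := mul_nonneg (by linarith) (by linarith)
    linarith
  have h5 : Tendsto (fun p : ℝ => (2 * θ ^ L) ^ (p - 1) *
      (2 * (Real.exp 1 * Real.log θ) / θ * (1 - 1 / (nn' θ p : ℝ))) * L /
      (((2 : ℝ) ^ (1 - p)) ^ L * (θ + 1 + (L - 1) * (θ - 1) ^ p))) (𝓝[<] 1)
      (𝓝 (1 * (2 * (Real.exp 1 * Real.log θ) / θ * 1) * L /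
        (1 * (θ + 1 + (L - 1) * (θ - 1))))) :=
    ((h1.mul (h2.const_mul _)).mul_const _).div
      (h3.mul ((h4.const_mul _).const_add _)) (by rw [one_mul]; exact hV0)
  rw [one_mul, mul_one, one_mul] at h5
  have hlim : 0 < 2 * (Real.exp 1 * Real.log θ) / θ * L / (θ + 1 + (L - 1) * (θ - 1)) := by
    have : 0 ≤ ((L : ℝ) - 1) * (θ - 1) := mul_nonneg (by linarith) (by linarith)
    have := Real.log_pos hθ
    have : 0 < θ := by linarith
    positivity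
  have h6 : Tendsto (fun p : ℝ => 1 / p) (𝓝[<] 1) (𝓝 1) := by
    have h7 : Tendsto (fun p : ℝ => 1 / p) (𝓝[<] 1) (𝓝 (1 / 1)) :=
      (tendsto_const_nhds (x := (1 : ℝ))).div hid one_ne_zero
    rwa [div_one] at h7
  have := h5.rpow h6 (Or.inl hlim.ne')
  rwa [Real.rpow_one] at this

/-- a good choice of the parameters -/
theorem exists_params {c : ℝ} (hc : c < 2 * Real.exp 1) :
    ∃ θ : ℝ, 1 < θ ∧ ∃ L : ℕ, 1 ≤ L ∧
      c < 2 * (Real.exp 1 * Real.log θ) / θ * L / (θ + 1 + (L - 1) * (θ - 1)) := by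
  have h1 : Tendsto (fun m : ℕ => 2 * Real.exp 1 * ((1 + (1 : ℝ) / m)⁻¹ ^ 2 * (1 + 2 * ((1 : ℝ) / m))⁻¹))
      atTop (𝓝 (2 * Real.exp 1 * ((1 + 0)⁻¹ ^ 2 * (1 + 2 * 0)⁻¹))) := by
    have h0 : Tendsto (fun m : ℕ => (1 : ℝ) / m) atTop (𝓝 0) := tendsto_one_div_atTop_nhds_zero_nat
    refine Tendsto.const_mul _ (Tendsto.mul ?_ ?_)
    · exact ((h0.const_add 1).inv₀ (by norm_num)).pow 2
    · exact ((h0.const_mul 2).const_add 1).inv₀ (by norm_num)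
  simp only [add_zero, mul_zero, inv_one, one_pow, mul_one] at h1
  have h2 := h1.eventually (lt_mem_nhds hc)
  obtain ⟨m, hm, hm1⟩ := (h2.and (eventually_ge_atTop 1)).exists
  have hmR : (1 : ℝ) ≤ m := by exact_mod_cast hm1
  have hm0 : (0 : ℝ) < m := by linarith
  refine ⟨1 + 1 / m, by have : (0 : ℝ) < 1 / m := by positivity
                        linarith, m ^ 2, Nat.one_le_pow _ _ (by omega), ?_⟩
  refine lt_of_lt_of_le hm ?_
  set θ : ℝ := 1 + 1 / m with hθ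
  have hθ0 : 0 < θ := by positivity
  have hlog : 1 - θ⁻¹ ≤ Real.log θ := Real.one_sub_inv_le_log_of_pos hθ0
  have hden : θ + 1 + (((m ^ 2 : ℕ) : ℝ) - 1) * (θ - 1) = m + 2 := by
    rw [hθ]; push_cast; field_simp; ring
  rw [hden]
  have h3 : 1 - θ⁻¹ = 1 / (m + 1) := by
    rw [hθ]; field_simp; ring
  rw [h3] at hlog
  have h4 : θ = (m + 1) / m := by rw [hθ]; field_simp
  have he : 0 < Real.exp 1 := Real.exp_pos 1
  calc 2 * Real.exp 1 * ((1 + (1 : ℝ) / m)⁻¹ ^ 2 * (1 + 2 * ((1 : ℝ) / m))⁻¹)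
      = 2 * (Real.exp 1 * (1 / (m + 1))) / θ * ((m ^ 2 : ℕ) : ℝ) / (m + 2) := by
        rw [h4]; push_cast; field_simp
    _ ≤ 2 * (Real.exp 1 * Real.log θ) / θ * ((m ^ 2 : ℕ) : ℝ) / (m + 2) := by
        gcongr

theorem eventually_lower {c : ℝ} (hc : c < 2 * Real.exp 1) :
    ∀ᶠ p : ℝ in 𝓝[<] 1, ENNReal.ofReal c ≤ ⨆ m : ℕ, A p 1 m := by
  obtain ⟨θ, hθ, L, hL, hcL⟩ := exists_params hc
  have h1 := (tendsto_lower hθ hL).eventually (lt_mem_nhds hcL)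
  have h2 := (tendsto_nn' hθ).eventually (eventually_ge_atTop 2)
  have h3 : ∀ᶠ p : ℝ in 𝓝[<] 1, 0 < p := nhdsWithin_le_nhds (lt_mem_nhds one_pos)
  filter_upwards [h1, h2, h3, self_mem_nhdsWithin] with p hp1 hp2 hp3 hp4
  exact (ENNReal.ofReal_le_ofReal hp1.le).trans (A_lower' hθ hp3 hp4 hL hp2)

/-- `A_p^q(n)` is nonincreasing in `q` -/
theorem A_mono {p q : ℝ} (hq : 0 < q) (hq1 : q ≤ 1) (n : ℕ) : A p 1 n ≤ A p q n := by
  rw [A, A]
  refine iSup_le fun M => iSup_le fun hM => iSup_le fun d => iSup_le fun hd => iSup_le fun o =>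
    iSup_le fun S => iSup_le fun ho => iSup_le fun hS => ?_
  have hd' : IsRMetric q d := by
    refine ⟨hd.nonneg, hd.eq_zero_iff, hd.symm, fun x y z => ?_⟩
    have h1 := hd.triangle x y z
    rw [Real.rpow_one, Real.rpow_one, Real.rpow_one] at h1
    exact (Real.rpow_le_rpow (hd.nonneg _ _) h1 hq.le).trans
      (Real.rpow_add_le_add_rpow (hd.nonneg _ _) (hd.nonneg _ _) hq.le hq1)
  exact le_iSup_of_le M (le_iSup_of_le hM (le_iSup_of_le d (le_iSup_of_le hd' (le_iSup_of_le o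
    (le_iSup_of_le S (le_iSup_of_le ho (le_iSup_of_le hS le_rfl)))))))

end Pool.Agent.Y838.UB
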